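import Mathlib
import Pool.Agent.Helper82.Circ.Defs
import Pool.Agent.Helper55.Circ.BU
import Pool.Agent.Helper55.Circ.Cov

/-!
A free circle action realising `z ^ 2` on a finite covering gives a contradiction.
-/

open Topology Set Function

namespace Pool.Agent.Helper55.Circ

open Pool.Agent.Helper82.Circ

/-- The circle action at time `s`. -/
noncomputable def rot {N : Type} [MulAction Circle N] (s : ℝ) (n : N) : N :=
  Circle.exp (2 * Real.pi * s) • n

lemma rot_zero {N : Type} [MulAction Circle N] (n : N) : rot 0 n = n := by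
  simp [rot]

lemma rot_one {N : Type} [MulAction Circle N] (n : N) : rot 1 n = n := by
  simp [rot]

lemma rot_add {N : Type} [MulAction Circle N] (s t : ℝ) (n : N) :
    rot (s + t) n = rot s (rot t n) := by
  simp only [rot, mul_add, Circle.exp_add, mul_smul]

lemma continuous_rot {N : Type} [TopologicalSpace N] [MulAction Circle N]
    [ContinuousSMul Circle N] : Continuous (fun x : ℝ × N => rot x.1 x.2) := by
  unfold rot
  fun_prop

lemma rot_half_ne {N : Type} [MulAction Circle N]
    (hfree : ∀ (c : Circle) (x : N), c • x = x → c = 1) (n : N) : rot (1 / 2) n ≠ n := by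
  intro h
  have h1 := hfree _ _ h
  have h2 : (2 * Real.pi * (1 / 2) : ℝ) = Real.pi := by ring
  rw [h2] at h1
  have h3 := congrArg (fun c : Circle => (c : ℂ)) h1
  simp only [Circle.coe_exp, Circle.coe_one, Complex.exp_pi_mul_I] at h3
  norm_num at h3

section Main

variable {U M Γ N : Type} [TopologicalSpace U] [TopologicalSpace M] [TopologicalSpace N] [Group Γ]
  [MulAction Γ U] [MulAction Circle N] [ContinuousSMul Circle N]

/-- Two lifts of the same homotopy agree. -/
lemma lift_unique {E X : Type} [TopologicalSpace E] [TopologicalSpace X] {p : E → X}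
    (hp : IsCoveringMap p) {f g : ℝ → E} (hf : Continuous f) (hg : Continuous g)
    (h : ∀ s ∈ Icc (0 : ℝ) 1, p (f s) = p (g s)) (h0 : f 0 = g 0) :
    ∀ s ∈ Icc (0 : ℝ) 1, f s = g s := by
  have h1 := hp.eq_of_comp_eq (A := unitInterval) (g₁ := fun s => f s) (g₂ := fun s => g s)
    (hf.comp continuous_subtype_val) (hg.comp continuous_subtype_val)
    (funext fun s => h s s.2) 0 h0
  exact fun s hs => congrFun h1 ⟨s, hs⟩

/-- The lifted homotopy. -/
theorem exists_flow (p : U → M) (hp : IsQuotientCoveringMap p Γ) {q : N → M}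
    (hq : IsCoveringMap q) (Q : U → N) (hQ : Continuous Q) (hQp : ∀ v, q (Q v) = p v) :
    ∃ h : ℝ → U → U, Continuous (fun x : ℝ × U => h x.1 x.2) ∧ (∀ v, h 0 v = v) ∧
      ∀ s ∈ Icc (0 : ℝ) 1, ∀ v, Q (h s v) = rot s (Q v) := by
  have cov := hp.isCoveringMap
  let H : C(unitInterval × U, M) := ⟨fun x => q (rot x.1 (Q x.2)), by
    refine hq.continuous.comp ?_
    refine continuous_rot.comp (Continuous.prodMk ?_ ?_)
    · exact continuous_subtype_val.comp continuous_fst
    · exact hQ.comp continuous_snd⟩
  have H0 : ∀ a, H (0, a) = p ((ContinuousMap.id U) a) := by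
    intro a
    simp only [H, ContinuousMap.coe_mk, ContinuousMap.id_apply]
    rw [← hQp a]
    congr 1
    exact rot_zero _
  let h' := cov.liftHomotopy H (ContinuousMap.id U) H0
  have hl : ∀ s v, p (h' (s, v)) = q (rot s (Q v)) := fun s v =>
    congrFun (cov.liftHomotopy_lifts H (ContinuousMap.id U) H0) (s, v)
  have h0 : ∀ v, h' (0, v) = v := fun v => cov.liftHomotopy_zero H (ContinuousMap.id U) H0 v
  refine ⟨fun s v => h' (projIcc 0 1 zero_le_one s, v), ?_, fun v => ?_, ?_⟩
  · refine h'.continuous.comp (Continuous.prodMk ?_ continuous_snd)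
    exact continuous_projIcc.comp continuous_fst
  · have : projIcc (0 : ℝ) 1 zero_le_one 0 = 0 := projIcc_left zero_le_one
    simp only [this]
    exact h0 v
  · intro s hs v
    have hc : Continuous fun s : ℝ => h' (projIcc 0 1 zero_le_one s, v) :=
      h'.continuous.comp (continuous_projIcc.prodMk continuous_const)
    refine lift_unique hq (hQ.comp hc) (continuous_rot.comp (continuous_id.prodMk continuous_const))
      ?_ ?_ s hs
    · intro s hs
      simp only [comp_apply]
      rw [hQp, hl]
      simp [projIcc_of_mem zero_le_one hs]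
    · simp only [comp_apply]
      have : projIcc (0 : ℝ) 1 zero_le_one 0 = 0 := projIcc_left zero_le_one
      rw [this, h0]
      exact (rot_zero _).symm

/-- The contradiction, from the flow. -/
theorem contradiction_of_flow [ContractibleSpace U] [T2Space M] [CompactSpace M] (p : U → M)
    (hp : IsQuotientCoveringMap p Γ) (z : Γ)
    (hodd : ∀ H : Subgroup Γ, H.FiniteIndex → z ^ 2 ∈ H → z ∈ H) (u : U)
    {q : N → M} (hq : IsCoveringMap q) (hfin : ∀ y, (q ⁻¹' {y}).Finite)
    (hfree : ∀ (c : Circle) (x : N), c • x = x → c = 1)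
    (Q : U → N) (hQ : Continuous Q) (hQp : ∀ v, q (Q v) = p v)
    (h : ℝ → U → U) (hc : Continuous (fun x : ℝ × U => h x.1 x.2)) (h0 : ∀ v, h 0 v = v)
    (hQh : ∀ s ∈ Icc (0 : ℝ) 1, ∀ v, Q (h s v) = rot s (Q v)) (h1 : h 1 u = z ^ 2 • u) :
    False := by
  have cov := hp.isCoveringMap
  have := hp.toContinuousConstSMul
  have hps : ∀ (γ : Γ) v, p (γ • v) = p v := fun γ v => hp.map_smul γ
  have hph : ∀ s ∈ Icc (0 : ℝ) 1, ∀ v, p (h s v) = q (rot s (Q v)) := fun s hs v => by
    rw [← hQp, hQh s hs]
  have hcs : ∀ s, Continuous (h s) := fun s =>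
    hc.comp (continuous_const.prodMk continuous_id)
  have hct : ∀ v, Continuous (fun s => h s v) := fun v =>
    hc.comp (continuous_id.prodMk continuous_const)
  have hpre : PreconnectedSpace U := inferInstance
  -- the time one map
  have h1' : ∀ v, h 1 v = z ^ 2 • v := by
    have := cov.eq_of_comp_eq (g₁ := h 1) (g₂ := fun v => z ^ 2 • v) (hcs 1)
      (continuous_const_smul _) (by
        funext v
        simp only [comp_apply]
        rw [hph 1 (by simp), rot_one, hQp, hps]) u h1
    exact fun v => congrFun this v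
  -- uniqueness of lifts through `q`
  have huniq : ∀ γ γ' : Γ, Q (γ • u) = Q (γ' • u) → ∀ v, Q (γ • v) = Q (γ' • v) := by
    intro γ γ' hγ
    have := hq.eq_of_comp_eq (g₁ := fun v => Q (γ • v)) (g₂ := fun v => Q (γ' • v))
      (hQ.comp (continuous_const_smul _)) (hQ.comp (continuous_const_smul _)) (by
        funext v
        simp only [comp_apply]
        rw [hQp, hQp, hps, hps]) u hγ
    exact fun v => congrFun this v
  let Hg : Subgroup Γ :=
    { carrier := {γ | ∀ v, Q (γ • v) = Q v}
      mul_mem' := by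
        intro a b ha hb v
        rw [mul_smul, ha, hb]
      one_mem' := by
        intro v
        rw [one_smul]
      inv_mem' := by
        intro a ha v
        rw [← ha (a⁻¹ • v), smul_inv_smul] }
  have hmem : ∀ γ, γ ∈ Hg ↔ ∀ v, Q (γ • v) = Q v := fun γ => Iff.rfl
  have hfi : Hg.FiniteIndex := by
    have hfib : Finite (q ⁻¹' {p u}) := (hfin _).to_subtype
    let φ : Γ ⧸ Hg → q ⁻¹' {p u} := Quotient.lift (s := QuotientGroup.leftRel Hg)
      (fun γ => ⟨Q (γ⁻¹ • u), by simp only [mem_preimage, mem_singleton_iff]; rw [hQp, hps]⟩) (by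
        intro a b hab
        have hab' : a⁻¹ * b ∈ Hg := QuotientGroup.leftRel_apply.1 hab
        refine Subtype.ext ?_
        have := (hmem _).1 hab' (b⁻¹ • u)
        simp only
        rw [← this, smul_smul, mul_assoc, mul_inv_cancel, mul_one])
    have hφ : Injective φ := by
      intro a b
      induction a using Quotient.inductionOn with | _ a
      induction b using Quotient.inductionOn with | _ b
      intro hab
      refine Quotient.sound (QuotientGroup.leftRel_apply.2 ?_)
      have h2 : Q (a⁻¹ • u) = Q (b⁻¹ • u) := congrArg Subtype.val hab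
      have h3 := huniq _ _ h2
      rw [hmem]
      intro v
      have h4 := h3 (b • v)
      rw [smul_smul, inv_smul_smul] at h4
      exact h4
    have : Finite (Γ ⧸ Hg) := Finite.of_injective φ hφ
    exact Subgroup.finiteIndex_of_finite_quotient
  have hz2 : z ^ 2 ∈ Hg := by
    rw [hmem]
    intro v
    rw [← h1' v, hQh 1 (by simp), rot_one]
  have hz : z ∈ Hg := hodd Hg hfi hz2
  have hz' : z⁻¹ ∈ Hg := Hg.inv_mem hz
  rw [hmem] at hz hz'
  -- the flow commutes with `z`
  have hcomm : ∀ s ∈ Icc (0 : ℝ) 1, ∀ v, h s (z⁻¹ • v) = z⁻¹ • h s v := by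
    intro s hs v
    refine lift_unique cov (hct _) ((continuous_const_smul _).comp (hct v)) ?_ ?_ s hs
    · intro s hs
      simp only [comp_apply]
      rw [hps, hph s hs, hph s hs, hz']
    · simp only [comp_apply, h0]
  have hhalf : (1 / 2 : ℝ) ∈ Icc (0 : ℝ) 1 := by constructor <;> norm_num
  have hhh : ∀ v, h (1 / 2) (h (1 / 2) v) = z ^ 2 • v := by
    intro v
    have h2 := lift_unique cov (f := fun s => h (s / 2) (h (1 / 2) v))
      (g := fun s => h (s / 2 + 1 / 2) v)
      ((hct _).comp (by fun_prop)) ((hct _).comp (by fun_prop)) (by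
        intro s hs
        have hs1 : s / 2 ∈ Icc (0 : ℝ) 1 := ⟨by linarith [hs.1], by linarith [hs.2]⟩
        have hs2 : s / 2 + 1 / 2 ∈ Icc (0 : ℝ) 1 := ⟨by linarith [hs.1], by linarith [hs.2]⟩
        rw [hph _ hs1, hph _ hs2, hQh _ hhalf, rot_add]) (by
        simp only [zero_div, zero_add, h0]) 1 (by simp)
    rw [← h1' v, h2]
    norm_num
  -- the involution
  let T : U → U := fun v => z⁻¹ • h (1 / 2) v
  have hT : Continuous T := (continuous_const_smul _).comp (hcs _)
  have hTT : ∀ v, T (T v) = v := by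
    intro v
    simp only [T]
    rw [hcomm _ hhalf, hhh, smul_smul, smul_smul]
    have : z⁻¹ * z⁻¹ * z ^ 2 = 1 := by group
    rw [this, one_smul]
  have hQT : ∀ v, Q (T v) = rot (1 / 2) (Q v) := by
    intro v
    simp only [T]
    rw [hz', hQh _ hhalf]
  have := t2Space_of_isCoveringMap hq
  have := compactSpace_of_isCoveringMap hq hfin
  obtain ⟨ls, F, hF1, hF2, hF3⟩ := exists_odd_functions (N := N) (rot (1 / 2))
    (continuous_rot.comp (continuous_const.prodMk continuous_id))
    (fun n => by rw [← rot_add]; norm_num [rot_one]) (rot_half_ne hfree)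
  obtain ⟨v, hv⟩ := exists_common_zero T hT hTT ls (fun x v => F x (Q v))
    (fun x => (hF1 x).comp hQ) (fun x v => by rw [hQT, hF2])
  obtain ⟨x, hx, hx2⟩ := hF3 (Q v)
  exact hx2 (hv x hx)

end Main

end Pool.Agent.Helper55.Circ

namespace Pool.Agent.Helper55

open Pool.Agent.Helper82.Circ Pool.Agent.Helper55.Circ MulOpposite

theorem notRealised_of_group {U M Γ : Type} [TopologicalSpace U] [TopologicalSpace M] [Group Γ]
    [MulAction Γ U] [ContractibleSpace U] [LocallyPathConnectedSpace U] [T2Space M]
    [CompactSpace M] (p : U → M) (hp : IsQuotientCoveringMap p Γ) (z : Γ)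
    (hz : z ∈ Subgroup.center Γ) (hz2 : z ^ 2 ≠ 1)
    (hodd : ∀ H : Subgroup Γ, H.FiniteIndex → z ^ 2 ∈ H → z ∈ H) (u : U) :
    ∃ g : FundamentalGroup M (p u), g ∈ Subgroup.center (FundamentalGroup M (p u)) ∧ g ≠ 1 ∧
      NotRealised M (p u) g := by
  have cov := hp.isCoveringMap
  let e : p ⁻¹' {p u} := ⟨u, rfl⟩
  let φ := hp.fundamentalGroupEquiv e
  have hzc : z ^ 2 ∈ Subgroup.center Γ := Subgroup.pow_mem _ hz 2
  refine ⟨φ.symm (op (z ^ 2)), ?_, ?_, ?_⟩
  · rw [Subgroup.mem_center_iff]
    intro g
    apply φ.injective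
    rw [map_mul, map_mul, MulEquiv.apply_symm_apply]
    apply unop_injective
    rw [unop_mul, unop_mul, MulOpposite.unop_op]
    exact ((Subgroup.mem_center_iff.1 hzc) _).symm
  · intro h
    have h1 := congrArg φ h
    rw [MulEquiv.apply_symm_apply, map_one] at h1
    exact hz2 (op_injective h1)
  · intro N _ _ _ _ q hq hfin hfree x hx hcl
    obtain ⟨F, ⟨hF1, hF2⟩, -⟩ := hq.existsUnique_continuousMap_lifts
      (⟨p, hp.continuous⟩ : C(U, M)) u x hx
    have hQp : ∀ v, q (F v) = p v := fun v => congrFun hF2 v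
    obtain ⟨h, hc, h0, hQh⟩ := exists_flow p hp hq F F.continuous hQp
    refine contradiction_of_flow p hp z hodd u hq hfin hfree F F.continuous hQp h hc h0 hQh ?_
    have h2 : φ (FundamentalGroup.fromPath (Path.Homotopic.Quotient.mk
        (((orbitLoop x).map hq.continuous).cast hx.symm hx.symm))) = op (z ^ 2) := by
      rw [hcl, MulEquiv.apply_symm_apply]
    have h3 := (hp.fundamentalGroupToMulOpposite_apply_eq_Iff (e := e)).1 h2
    rw [MulOpposite.unop_op] at h3
    have h4 : (cov.monodromy (Path.Homotopic.Quotient.mk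
        (((orbitLoop x).map hq.continuous).cast hx.symm hx.symm)) e : U) = h 1 u := by
      have hrot : ∀ s : unitInterval, p (h s u) = q (orbitLoop x s) := fun s => by
        rw [← hQp, hQh s s.2, hF1]
        rfl
      let Γ' : C(unitInterval, U) := ⟨fun s => h s u,
        hc.comp (continuous_subtype_val.prodMk continuous_const)⟩
      have hΓ : Γ' = cov.liftPath
          ((((orbitLoop x).map hq.continuous).cast hx.symm hx.symm : Path (p u) (p u)) :
            C(unitInterval, M)) u (by simp) := by
        rw [cov.eq_liftPath_iff']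
        refine ⟨funext fun s => ?_, h0 u⟩
        exact hrot s
      have h5 := congrArg (fun f : C(unitInterval, U) => f 1) hΓ
      simp only [Γ', ContinuousMap.coe_mk, Set.Icc.coe_one] at h5
      rw [h5]
      rfl
    rw [← h4]
    exact h3.symm

end Pool.Agent.Helper55
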