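import Pool.Agent.Helper55.GolodExample

/-!
# Depth and Cohen-Macaulay type
-/

universe u

namespace Pool.Agent.Helper55

open MvPolynomial CategoryTheory

open scoped ModuleCat

section Defs

variable (k : Type u) [Field k] {R : Type u} [CommRing R] [Algebra k R] {n : ℕ} (x : Fin n → R)

/-- `d` is the maximal length of an `R`-regular sequence contained in the ideal `(x)`. -/
def IsDepth (d : ℕ) : Prop :=
  (∃ rs : List R, rs.length = d ∧ (∀ r ∈ rs, r ∈ mI x) ∧
      RingTheory.Sequence.IsRegular R rs) ∧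
    ∀ rs : List R, (∀ r ∈ rs, r ∈ mI x) → RingTheory.Sequence.IsRegular R rs → rs.length ≤ d

/-- The `k`-dimension of `Ext^d_R(R/(x), R)`. -/
noncomputable def extDim (d : ℕ) : ℕ :=
  Module.finrank k (Abelian.Ext.{u} (ModuleCat.of R (R ⧸ mI x)) (ModuleCat.of R R) d)

end Defs

section Ex

variable {k : Type u} [Field k]

lemma depth_ex [CharZero k] : IsDepth (xb (exI k)) 0 := by
  have : IsArtinianRing (MvPolynomial (Fin 3) k ⧸ exI k) := IsArtinianRing.of_finite k _
  refine ⟨⟨[], rfl, by simp, RingTheory.Sequence.IsRegular.nil _ _⟩, ?_⟩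
  intro rs _ hrs
  rw [RingTheory.Sequence.eq_nil_of_isRegular_on_artinian hrs]
  rfl

/-- the homomorphism with a given value at one -/
noncomputable def homOf {f : MvPolynomial (Fin 3) k}
    (hf : ∀ r ∈ mI (xb (exI k)), r * Ideal.Quotient.mk (exI k) f = 0) :
    ((MvPolynomial (Fin 3) k ⧸ exI k) ⧸ mI (xb (exI k))) →ₗ[MvPolynomial (Fin 3) k ⧸ exI k]
      (MvPolynomial (Fin 3) k ⧸ exI k) :=
  Submodule.liftQ _ (LinearMap.toSpanSingleton (MvPolynomial (Fin 3) k ⧸ exI k) _
    (Ideal.Quotient.mk (exI k) f)) hf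

/-- evaluation at the two functionals -/
noncomputable def evl (k : Type u) [Field k] :
    (((MvPolynomial (Fin 3) k ⧸ exI k) ⧸ mI (xb (exI k))) →ₗ[MvPolynomial (Fin 3) k ⧸ exI k]
      (MvPolynomial (Fin 3) k ⧸ exI k)) →ₗ[k] k × k where
  toFun g := (liftF (exI k) (LL1 k) (fun _ h => h.2.1) (g 1),
    liftF (exI k) (LL2 k) (fun _ h => h.2.2) (g 1))
  map_add' g h := by
    rw [LinearMap.add_apply, map_add, map_add]
    rfl
  map_smul' c g := by
    rw [LinearMap.smul_apply, map_smul, map_smul]
    rfl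

lemma evl_injective : Function.Injective (evl k) := by
  rw [injective_iff_map_eq_zero]
  intro g hg
  obtain ⟨f, hf⟩ := Ideal.Quotient.mk_surjective (g 1)
  have h1 : LL1 k f = 0 := by
    have := congrArg Prod.fst hg
    change liftF (exI k) (LL1 k) _ (g 1) = 0 at this
    rwa [← hf] at this
  have h2 : LL2 k f = 0 := by
    have := congrArg Prod.snd hg
    change liftF (exI k) (LL2 k) _ (g 1) = 0 at this
    rwa [← hf] at this
  have h3 : f ∈ (idealOfVars (Fin 3) k) ^ 3 := by
    apply mem_cube
    intro l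
    rw [← Ideal.Quotient.eq_zero_iff_mem, map_mul, hf]
    change xb (exI k) l * g 1 = 0
    rw [← smul_eq_mul, ← map_smul]
    have h4 : xb (exI k) l • (1 : (MvPolynomial (Fin 3) k ⧸ exI k) ⧸ mI (xb (exI k))) = 0 := by
      change Ideal.Quotient.mk (mI (xb (exI k))) (xb (exI k) l * 1) = 0
      rw [Ideal.Quotient.eq_zero_iff_mem, mul_one]
      exact x_mem l
    rw [h4, map_zero]
  have h5 : g 1 = 0 := by
    rw [← hf, Ideal.Quotient.eq_zero_iff_mem]
    exact ⟨h3, h1, h2⟩
  apply LinearMap.ext
  intro y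
  obtain ⟨r, rfl⟩ := Ideal.Quotient.mk_surjective y
  have h6 : Ideal.Quotient.mk (mI (xb (exI k))) r =
      r • (1 : (MvPolynomial (Fin 3) k ⧸ exI k) ⧸ mI (xb (exI k))) := by
    change _ = Ideal.Quotient.mk (mI (xb (exI k))) (r * 1)
    rw [mul_one]
  rw [h6, map_smul, h5, smul_zero, LinearMap.zero_apply]

lemma evl_surjective : Function.Surjective (evl k) := by
  classical
  rintro ⟨a, b⟩
  set f : MvPolynomial (Fin 3) k := monomial (Finsupp.single 0 3) a +
    monomial (Finsupp.single 0 1 + Finsupp.single 1 1 + Finsupp.single 2 1) b with hfd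
  have hf3 : f ∈ (idealOfVars (Fin 3) k) ^ 3 := by
    rw [mem_pow_idealOfVars_iff']
    intro d hd
    rw [hfd, coeff_add, coeff_monomial, coeff_monomial, if_neg, if_neg, add_zero]
    · rintro rfl
      rw [degree_t] at hd
      omega
    · rintro rfl
      rw [Finsupp.degree_single] at hd
      omega
  have hne : (Finsupp.single 0 1 + Finsupp.single 1 1 + Finsupp.single 2 1 : Fin 3 →₀ ℕ) ≠
      Finsupp.single 0 3 := by
    intro h
    have := DFunLike.congr_fun h 1
    simp at this
  have h1 : LL1 k f = a := by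
    rw [LL1_apply, Fin.sum_univ_three, hfd]
    simp only [coeff_add, coeff_monomial]
    have e1 : ¬ (Finsupp.single (0 : Fin 3) 1 + Finsupp.single 1 1 + Finsupp.single 2 1 =
        Finsupp.single (1 : Fin 3) 3) := by
      intro h
      have := DFunLike.congr_fun h 0
      simp at this
    have e2 : ¬ (Finsupp.single (0 : Fin 3) 1 + Finsupp.single 1 1 + Finsupp.single 2 1 =
        Finsupp.single (2 : Fin 3) 3) := by
      intro h
      have := DFunLike.congr_fun h 0
      simp at this
    have e3 : ¬ (Finsupp.single (0 : Fin 3) 3 = Finsupp.single (1 : Fin 3) 3) := by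
      intro h
      have := DFunLike.congr_fun h 0
      simp at this
    have e4 : ¬ (Finsupp.single (0 : Fin 3) 3 = Finsupp.single (2 : Fin 3) 3) := by
      intro h
      have := DFunLike.congr_fun h 0
      simp at this
    rw [if_neg hne, if_neg e3, if_neg e1, if_neg e4, if_neg e2]
    simp
  have h2 : LL2 k f = b := by
    rw [LL2_apply, hfd, coeff_add, coeff_monomial, coeff_monomial, if_neg (Ne.symm hne),
      if_pos rfl, zero_add]
  refine ⟨homOf (f := f) ?_, ?_⟩
  · intro r hr
    obtain ⟨s, hs, rfl⟩ := (Ideal.mem_map_iff_of_surjective _ Ideal.Quotient.mk_surjective).mp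
      (mI_xb (exI k) ▸ hr)
    rw [← map_mul, Ideal.Quotient.eq_zero_iff_mem]
    apply le_exI
    rw [pow_succ']
    exact Ideal.mul_mem_mul hs hf3
  · have e : homOf (f := f) (by
        intro r hr
        obtain ⟨s, hs, rfl⟩ := (Ideal.mem_map_iff_of_surjective _
          Ideal.Quotient.mk_surjective).mp (mI_xb (exI k) ▸ hr)
        rw [← map_mul, Ideal.Quotient.eq_zero_iff_mem]
        apply le_exI
        rw [pow_succ']
        exact Ideal.mul_mem_mul hs hf3) 1 = Ideal.Quotient.mk (exI k) f := by
      change (1 : MvPolynomial (Fin 3) k ⧸ exI k) • Ideal.Quotient.mk (exI k) f = _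
      rw [one_smul]
    change (liftF (exI k) (LL1 k) _ (homOf _ 1), liftF (exI k) (LL2 k) _ (homOf _ 1)) = (a, b)
    rw [e, liftF_mk, liftF_mk, h1, h2]

lemma finrank_ext_zero {R : Type u} [CommRing R] [Algebra k R] (X Y : ModuleCat.{u} R)
    {M N : Type u} [AddCommGroup M] [Module R M] [AddCommGroup N] [Module R N] [Module k N]
    [IsScalarTower k R N] (f : X ≃ₗ[R] M) (g : Y ≃ₗ[R] N) :
    Module.finrank k (Abelian.Ext.{u} X Y 0) = Module.finrank k (M →ₗ[R] N) := by
  have h1 := (Abelian.Ext.linearEquiv₀ (R := k) (X := X) (Y := Y)).finrank_eq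
  have h2 := (ModuleCat.homLinearEquiv (S := k) (M := X) (N := Y)).finrank_eq
  let e : (X →ₗ[R] Y) ≃ₗ[k] (M →ₗ[R] N) :=
    { toFun := fun φ => g.toLinearMap ∘ₗ φ ∘ₗ f.symm.toLinearMap
      invFun := fun φ => g.symm.toLinearMap ∘ₗ φ ∘ₗ f.toLinearMap
      left_inv := fun φ => by
        apply LinearMap.ext
        intro y
        simp
      right_inv := fun φ => by
        apply LinearMap.ext
        intro y
        simp
      map_add' := fun φ ψ => by
        apply LinearMap.ext
        intro y
        simp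
      map_smul' := fun c φ => by
        apply LinearMap.ext
        intro y
        change g (c • φ (f.symm y)) = c • g (φ (f.symm y))
        rw [← algebraMap_smul R c (φ (f.symm y)), map_smul, algebraMap_smul] }
  exact h1.trans (h2.trans e.finrank_eq)

lemma type_ex : extDim k (xb (exI k)) 0 = 2 := by
  have e2 := LinearEquiv.ofBijective (evl k) ⟨evl_injective, evl_surjective⟩
  have h2 := e2.finrank_eq
  rw [Module.finrank_prod, Module.finrank_self] at h2
  exact (finrank_ext_zero (k := k) _ _ (LinearEquiv.refl _ _) (LinearEquiv.refl _ _)).trans h2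

end Ex

end Pool.Agent.Helper55
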