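import Pool.Agent.Helper55.GolodDefs
import Pool.Agent.Helper55.GolodType

/-!
# From the working definitions to the official ones
-/

universe u

namespace Pool.Agent.Helper55

open MvPolynomial CategoryTheory

section Bridge

variable {k : Type u} [Field k] {R : Type u} [CommRing R] [Algebra k R] {n : ℕ} {x : Fin n → R}

lemma kdim_eq {X : ModuleCat.{u} R} {M : Type u} [AddCommGroup M] [Module R M] [Module k M]
    [IsScalarTower k R M] (e : X ≃ₗ[R] M) : kdim k X = Module.finrank k M := by
  let i1 : Module k X := Module.compHom X (algebraMap k R)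
  have i2 : IsScalarTower k R X := ⟨fun c r m => by
    change (c • r) • m = algebraMap k R c • (r • m)
    rw [← mul_smul, Algebra.smul_def]⟩
  exact (e.restrictScalars k).finrank_eq

lemma poincare_eq : poincare k x = poincareSeries k x := by
  rw [poincare, poincareSeries]
  congr 1

lemma koszulSer_eq : koszulSer k x = koszulSeries k x := by
  rw [koszulSer, koszulSeries]
  congr 1

lemma golod_iff : Golod k x ↔ IsGolod k x := by
  rw [Golod, IsGolod, poincare_eq, koszulSer_eq]

end Bridge

section Ex

variable {k : Type u} [Field k]

lemma isCMOfType_ex [CharZero k] : IsCMOfType k (xbar (exI k)) 2 := by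
  refine ⟨0, depth_ex, by exact_mod_cast dim_ex, ?_⟩
  have e2 := LinearEquiv.ofBijective (evl k) ⟨evl_injective, evl_surjective⟩
  have h2 := e2.finrank_eq
  rw [Module.finrank_prod, Module.finrank_self] at h2
  refine (kdim_eq ?_).trans h2
  exact (Abelian.Ext.linearEquiv₀ (R := MvPolynomial (Fin 3) k ⧸ exI k)).trans
    (ModuleCat.homLinearEquiv (S := MvPolynomial (Fin 3) k ⧸ exI k))

end Ex

end Pool.Agent.Helper55
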