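import Pool.Agent.Helper55.GolodMain

/-!
# A ring that is a polynomial ring up to degree two, with `𝔪⁴ = 0`, is Golod
-/

universe u

namespace Pool.Agent.Helper55

open CliffordAlgebra (contractLeft involute)

section Crit

variable {k : Type u} [Field k] {R : Type u} [CommRing R] [Algebra k R] {n : ℕ} {x : Fin n → R}

lemma ext_eq_zero [Nontrivial R] {i : ℕ} (hi : n < i) {y : ExteriorAlgebra R (Fin n → R)}
    (hy : y ∈ ⋀[R]^i (Fin n → R)) : y = 0 := by
  have h1 : Module.finrank R (⋀[R]^i (Fin n → R)) = 0 := by
    rw [exteriorPower.finrank_eq R i, Module.finrank_fin_fun, Nat.choose_eq_zero_of_lt hi]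
  have h2 : Subsingleton (⋀[R]^i (Fin n → R)) := by
    have h3 := Module.finBasis R (⋀[R]^i (Fin n → R))
    rw [h1] at h3
    exact h3.repr.toEquiv.subsingleton
  exact congrArg Subtype.val (Subsingleton.elim (⟨y, hy⟩ : ⋀[R]^i (Fin n → R)) 0)

lemma smul_mem_boundaries {i : ℕ} {r : R} (hr : r ∈ mI x) (y : koszulCycles x i) :
    r • y ∈ koszulBoundaries x i := by
  refine Submodule.span_induction (p := fun r _ => r • y ∈ koszulBoundaries x i) ?_ ?_ ?_ ?_ hr
  · rintro _ ⟨l, rfl⟩
    refine ⟨ee R l * y.1, ι_mul_mem _ y.2.2, ?_⟩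
    exact (smul_eq_dK x l y.2.1).symm
  · rw [zero_smul]
    exact Submodule.zero_mem _
  · intro a b _ _ ha hb
    rw [add_smul]
    exact Submodule.add_mem _ ha hb
  · intro a b _ hb
    rw [smul_eq_mul, mul_smul]
    exact Submodule.smul_mem _ _ hb

lemma exists_const (h : LowDegree k x) (r : R) : ∃ c : k, r - algebraMap k R c ∈ mI x := by
  obtain ⟨c, a, ha⟩ := h.expand r
  refine ⟨c, ?_⟩
  have h1 := Ideal.pow_le_self two_ne_zero ha
  have h2 : ∑ l, a l • x l ∈ mI x :=
    Submodule.sum_mem _ fun l _ => by
      rw [Algebra.smul_def]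
      exact Ideal.mul_mem_left _ _ (x_mem l)
  have := Ideal.add_mem _ h1 h2
  rwa [sub_add_cancel] at this

/-- the index type -/
abbrev VV (k : Type u) [Field k] {R : Type u} [CommRing R] [Algebra k R] {n : ℕ} (x : Fin n → R) :
    Type := Σ i : Fin n, Fin (Module.finrank k (KoszulHomology x (i.1 + 1)))

lemma finite_sub {M : Type*} [AddCommGroup M] [Module R M] [Module k M] [IsScalarTower k R M]
    [Module.Finite k M] (p : Submodule R M) : Module.Finite k p :=
  Module.Finite.of_injective (p.subtype.restrictScalars k) p.injective_subtype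

lemma finite_quot {M : Type*} [AddCommGroup M] [Module R M] [Module k M] [IsScalarTower k R M]
    [Module.Finite k M] (p : Submodule R M) : Module.Finite k (M ⧸ p) :=
  Module.Finite.of_surjective (p.mkQ.restrictScalars k) p.mkQ_surjective

lemma finite_koszulHomology [Module.Finite k R] (i : ℕ) :
    Module.Finite k (KoszulHomology x i) := by
  have h0 : Module.Finite R (ExteriorAlgebra R (Fin n → R)) := Module.Finite.of_basis (bE R n)
  have h1 : Module.Finite k (ExteriorAlgebra R (Fin n → R)) := Module.Finite.trans R _
  have h2 : Module.Finite k (koszulCycles x i) := finite_sub _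
  exact finite_quot _

lemma finrank_res [Module.Finite k R] (h : LowDegree k x) (hm : mI x ≠ ⊤) :
    Module.finrank k (R ⧸ mI x) = 1 := by
  rw [finrank_eq_one_iff_of_nonzero' (Ideal.Quotient.mk (mI x) 1)]
  · intro w
    obtain ⟨r, rfl⟩ := Ideal.Quotient.mk_surjective w
    obtain ⟨c, hc⟩ := exists_const h r
    refine ⟨c, ?_⟩
    have e1 : c • Ideal.Quotient.mk (mI x) 1 = Ideal.Quotient.mk (mI x) (algebraMap k R c) := by
      rw [Algebra.algebraMap_eq_smul_one]
      rfl
    rw [e1]
    symm
    exact (Ideal.Quotient.mk_eq_mk_iff_sub_mem _ _).mpr hc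
  · intro h'
    rw [Ideal.Quotient.eq_zero_iff_mem] at h'
    exact hm ((Ideal.eq_top_iff_one _).mpr h')

lemma exists_golodData [CharZero k] [Nontrivial R] [Module.Finite k R] (h : LowDegree k x)
    (h4 : (mI x) ^ 4 = ⊥) :
    ∃ G : GolodData x (VV k x), ∀ v, G.dg v = v.1.1 + 1 := by
  classical
  have hfinH : ∀ i, Module.Finite k (KoszulHomology x i) := finite_koszulHomology
  let b : ∀ i : ℕ, Module.Basis (Fin (Module.finrank k (KoszulHomology x (i + 1)))) k
    (KoszulHomology x (i + 1)) := fun i =>
    haveI := hfinH (i + 1)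
    Module.finBasis k (KoszulHomology x (i + 1))
  have hz := fun i => exists_reps h i (b i)
  choose z hz1 hz2 using hz
  refine ⟨{ dg := fun v => v.1.1 + 1
            dg_pos := fun v => Nat.succ_pos _
            z := fun v => (z v.1.1 v.2 : ExteriorAlgebra R (Fin n → R))
            z_mem := fun v => (z v.1.1 v.2).2.2
            z_cyc := fun v => (z v.1.1 v.2).2.1
            z_small := fun v =>
              Submodule.smul_mono (Ideal.pow_le_self two_ne_zero) le_rfl (hz2 v.1.1 v.2)
            z_mul := ?_
            gen := ?_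
            indep := ?_ }, fun v => rfl⟩
  · intro v w
    have := mul_mem_smul_top (smul_top_of_mem (hz2 v.1.1 v.2)) (smul_top_of_mem (hz2 w.1.1 w.2))
    rw [← pow_add, h4, Submodule.bot_smul, Submodule.mem_bot] at this
    exact this
  · intro i y hy hd
    rcases lt_or_ge i n with hi | hi
    · set q : KoszulHomology x (i + 1) := (koszulBoundaries x (i + 1)).mkQ ⟨y, hd, hy⟩ with hq
      set c0 : Fin (Module.finrank k (KoszulHomology x (i + 1))) → k := fun a =>
        (b i).repr q a with hc0
      have hsum : q = ∑ a, c0 a • b i a := ((b i).sum_repr q).symm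
      let c : VV k x → R := fun v =>
        if hv : v.1.1 = i then algebraMap k R (c0 (hv ▸ v.2)) else 0
      have hc1 : ∀ v : VV k x, v.1.1 + 1 ≠ i + 1 → c v = 0 := by
        intro v hv
        have : ¬ v.1.1 = i := fun h => hv (by rw [h])
        simp only [c, dif_neg this]
      have hc2 : ∑ v : VV k x, c v • (z v.1.1 v.2 : ExteriorAlgebra R (Fin n → R)) =
          ∑ a, algebraMap k R (c0 a) • (z i a : ExteriorAlgebra R (Fin n → R)) := by
        rw [Fintype.sum_sigma, Finset.sum_eq_single (⟨i, hi⟩ : Fin n)]
        · refine Finset.sum_congr rfl fun a _ => ?_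
          simp only [c, dif_pos]
        · intro j _ hj
          apply Finset.sum_eq_zero
          intro a _
          have : ¬ j.1 = i := fun h => hj (Fin.ext h)
          simp only [c, dif_neg this, zero_smul]
        · intro h'
          exact absurd (Finset.mem_univ _) h'
      have hmem : (⟨y, hd, hy⟩ : koszulCycles x (i + 1)) -
          ∑ a, algebraMap k R (c0 a) • z i a ∈ koszulBoundaries x (i + 1) := by
        rw [← Submodule.Quotient.mk_eq_zero, ← Submodule.mkQ_apply, map_sub, map_sum, sub_eq_zero]
        rw [← hq, hsum]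
        refine Finset.sum_congr rfl fun a _ => ?_
        rw [map_smul, hz1, algebraMap_smul]
      obtain ⟨g, hg, e⟩ := hmem
      refine ⟨c, hc1, g, hg, ?_⟩
      rw [hc2, e]
      simp
    · refine ⟨0, fun _ _ => rfl, 0, Submodule.zero_mem _, ?_⟩
      rw [ext_eq_zero (by omega) hy]
      simp
  · rintro i c hc ⟨g, hg, e⟩ v
    by_cases hv : v.1.1 = i
    · obtain ⟨⟨j, hj⟩, a⟩ := v
      simp only at hv
      subst hv
      have hc2 : ∑ v : VV k x, c v • (z v.1.1 v.2 : ExteriorAlgebra R (Fin n → R)) =
          ∑ a, c ⟨⟨j, hj⟩, a⟩ • (z j a : ExteriorAlgebra R (Fin n → R)) := by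
        rw [Fintype.sum_sigma, Finset.sum_eq_single (⟨j, hj⟩ : Fin n)]
        · intro l _ hl
          apply Finset.sum_eq_zero
          intro a _
          have : l.1 + 1 ≠ j + 1 := fun h => hl (Fin.ext (by simpa using h))
          rw [hc _ this, zero_smul]
        · intro h'
          exact absurd (Finset.mem_univ _) h'
      have hmem : ∑ a, c ⟨⟨j, hj⟩, a⟩ • z j a ∈ koszulBoundaries x (j + 1) := by
        refine ⟨g, hg, ?_⟩
        rw [← e, hc2]
        simp
      choose c' hc' using fun a => exists_const h (c ⟨⟨j, hj⟩, a⟩)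
      have hmem2 : ∑ a, algebraMap k R (c' a) • z j a ∈ koszulBoundaries x (j + 1) := by
        have h5 : ∑ a, (c ⟨⟨j, hj⟩, a⟩ - algebraMap k R (c' a)) • z j a ∈
            koszulBoundaries x (j + 1) :=
          Submodule.sum_mem _ fun a _ => smul_mem_boundaries (hc' a) _
        have h6 := Submodule.sub_mem _ hmem h5
        rw [← Finset.sum_sub_distrib] at h6
        have h7 : ∀ (r s : R) (y : koszulCycles x (j + 1)), r • y = s • y - (s - r) • y := by
          intro r s y
          apply Subtype.ext
          change r • y.1 = s • y.1 - (s - r) • y.1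
          rw [sub_smul, sub_sub_cancel]
        convert h6 using 2
        exact h7 _ _ _
      have hlin : ∑ a, c' a • b j a = 0 := by
        rw [← Submodule.Quotient.mk_eq_zero, ← Submodule.mkQ_apply, map_sum] at hmem2
        rw [← hmem2]
        refine Finset.sum_congr rfl fun a _ => ?_
        rw [map_smul, hz1, algebraMap_smul]
      have hzero := Fintype.linearIndependent_iff.mp (b j).linearIndependent c' hlin a
      have := hc' a
      rw [hzero, map_zero, sub_zero] at this
      exact this
    · rw [hc v (fun h => hv (by simpa using h))]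
      exact Ideal.zero_mem _

open PowerSeries in
/-- The criterion. -/
theorem isGolod_of_lowDegree [CharZero k] [Nontrivial R] [Module.Finite k R] (h : LowDegree k x)
    (h4 : (mI x) ^ 4 = ⊥) (hm : mI x ≠ ⊤) : IsGolod k x := by
  obtain ⟨G, hG⟩ := exists_golodData h h4
  have : Module.Finite k (R ⧸ mI x) := finite_quot (k := k) (mI x)
  have hres : Module.finrank k (R ⧸ mI x) = 1 := finrank_res h hm
  have hP : poincareSeries k x =
      PowerSeries.mk fun N => (Module.finrank R (G.FF (N : ℤ)) : ℤ) := by
    ext N
    rw [poincareSeries, coeff_mk, coeff_mk, G.torDim_eq, hres, mul_one]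
  have hK : koszulSeries k x = ∑ v : VV k x, (X : ℤ⟦X⟧) ^ (G.dg v + 1) := by
    ext j
    rw [koszulSeries, coeff_mk, map_sum]
    simp only [coeff_X_pow, hG]
    rw [Fintype.sum_sigma]
    split_ifs with hj
    · symm
      apply Finset.sum_eq_zero
      intro i _
      apply Finset.sum_eq_zero
      intro a _
      exact if_neg (by simp only; omega)
    · obtain ⟨i, rfl⟩ : ∃ i, j = i + 2 := ⟨j - 2, by omega⟩
      rcases lt_or_ge i n with hi | hi
      · rw [Finset.sum_eq_single (⟨i, hi⟩ : Fin n)]
        · simp
        · intro l _ hl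
          apply Finset.sum_eq_zero
          intro a _
          exact if_neg (fun h' => hl (Fin.ext (show l.1 = i by simp only at h'; omega)))
        · intro h'
          exact absurd (Finset.mem_univ _) h'
      · rw [Finset.sum_eq_zero]
        · have h7 : Subsingleton (KoszulHomology x (i + 2 - 1)) := by
            have h8 : Subsingleton (koszulCycles x (i + 2 - 1)) := by
              constructor
              intro a b
              apply Subtype.ext
              rw [ext_eq_zero (by omega) a.2.2, ext_eq_zero (by omega) b.2.2]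
            exact Function.Surjective.subsingleton
              (Submodule.mkQ_surjective (koszulBoundaries x (i + 2 - 1)))
          rw [Module.finrank_zero_of_subsingleton]
          rfl
        · intro l _
          apply Finset.sum_eq_zero
          intro a _
          have := l.2
          exact if_neg (by simp only; omega)
  rw [IsGolod, hP, hK]
  exact G.rank_series

end Crit

end Pool.Agent.Helper55
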