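import Mathlib

/-!
# Definitions: Koszul homology, Golod rings, depth and type

`k` is a field, `R` a commutative `k`-algebra, `x₁, …, xₙ` elements of `R`.
-/

universe u v

namespace Pool.Agent.Helper55

open CategoryTheory

section Koszul

variable {R : Type u} [CommRing R] {M : Type u} [AddCommGroup M] [Module R M]

/-- The Koszul differential on the exterior algebra attached to a linear form. -/
noncomputable def koszulDiff (φ : M →ₗ[R] R) : ExteriorAlgebra R M →ₗ[R] ExteriorAlgebra R M :=
  CliffordAlgebra.contractLeft φ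

/-- Koszul cycles of degree `i`. -/
noncomputable def koszulZ (φ : M →ₗ[R] R) (i : ℕ) : Submodule R (ExteriorAlgebra R M) :=
  LinearMap.ker (koszulDiff φ) ⊓ ⋀[R]^i M

/-- Koszul boundaries of degree `i`. -/
noncomputable def koszulB (φ : M →ₗ[R] R) (i : ℕ) : Submodule R (ExteriorAlgebra R M) :=
  (⋀[R]^(i + 1) M).map (koszulDiff φ)

/-- Koszul homology of degree `i`: cycles modulo boundaries. -/
noncomputable def koszulH (φ : M →ₗ[R] R) (i : ℕ) : ModuleCat.{u} R :=
  ModuleCat.of R (koszulZ φ i ⧸ (koszulB φ i).submoduleOf (koszulZ φ i))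

end Koszul

section Golod

variable (k : Type u) [Field k] {R : Type u} [CommRing R] [Algebra k R] {n : ℕ} (x : Fin n → R)

/-- The dimension over `k` of a module over a `k`-algebra `R`. -/
noncomputable def kdim (X : ModuleCat.{u} R) : ℕ :=
  @Module.finrank k X _ _ (Module.compHom X (algebraMap k R))

/-- The `R`-module `R/(x₁, …, xₙ)`. -/
noncomputable def resMod : ModuleCat.{u} R :=
  ModuleCat.of R (R ⧸ Ideal.span (Set.range x))

/-- The Poincaré series: the coefficient of `t^i` is `dim_k Tor_i^R(R/(x), R/(x))`. -/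
noncomputable def poincare : PowerSeries ℤ :=
  PowerSeries.mk fun i => (kdim k (((Tor (ModuleCat.{u} R) i).obj (resMod x)).obj (resMod x)) : ℤ)

/-- The series `∑_{i ≥ 1} dim_k H_i t^(i+1)` with `H_i` the Koszul homology of `R` on `x`. -/
noncomputable def koszulSer : PowerSeries ℤ :=
  PowerSeries.mk fun j => if j ≤ 1 then 0 else
    (kdim k (koszulH (Fintype.linearCombination R x) (j - 1)) : ℤ)

/-- The Golod property: equality in Serre's bound for the Poincaré series. -/
def Golod : Prop :=
  poincare k x * (1 - koszulSer k x) = (1 + PowerSeries.X) ^ n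

/-- `d` is the maximal length of an `R`-regular sequence contained in the ideal `(x)`. -/
def HasDepth (d : ℕ) : Prop :=
  (∃ rs : List R, rs.length = d ∧ (∀ r ∈ rs, r ∈ Ideal.span (Set.range x)) ∧
      RingTheory.Sequence.IsRegular R rs) ∧
    ∀ rs : List R, (∀ r ∈ rs, r ∈ Ideal.span (Set.range x)) →
      RingTheory.Sequence.IsRegular R rs → rs.length ≤ d

/-- The `R`-module `Ext^d_R(R/(x), R)`. -/
noncomputable def extMod (d : ℕ) : ModuleCat.{u} R :=
  ModuleCat.of R (Abelian.Ext.{u} (resMod x) (ModuleCat.of R R) d)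

/-- `R` is Cohen-Macaulay of type `t`: the depth and the dimension of `R` agree, and `t` is the
dimension of `Ext^d_R(R/(x), R)` for `d` the depth. -/
def IsCMOfType (t : ℕ) : Prop :=
  ∃ d : ℕ, HasDepth x d ∧ ringKrullDim R = d ∧ kdim k (extMod x d) = t

end Golod

/-- The images of the variables in the quotient of a polynomial ring by an ideal. -/
noncomputable def xbar {k : Type u} [Field k] {n : ℕ} (I : Ideal (MvPolynomial (Fin n) k))
    (l : Fin n) : MvPolynomial (Fin n) k ⧸ I :=
  Ideal.Quotient.mk I (MvPolynomial.X l)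

end Pool.Agent.Helper55
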