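import Pool.Agent.Helper55.GolodCrit

/-!
# The ideal of the example, in three variables
-/

universe u

namespace Pool.Agent.Helper55

open MvPolynomial

section Ex

variable {k : Type u} [Field k]

/-- first functional -/
noncomputable def LL1 (k : Type u) [Field k] : MvPolynomial (Fin 3) k →ₗ[k] k :=
  ∑ i : Fin 3, lcoeff k (Finsupp.single i 3)

/-- second functional -/
noncomputable def LL2 (k : Type u) [Field k] : MvPolynomial (Fin 3) k →ₗ[k] k :=
  lcoeff k (Finsupp.single 0 1 + Finsupp.single 1 1 + Finsupp.single 2 1)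

lemma LL1_apply (f : MvPolynomial (Fin 3) k) :
    LL1 k f = ∑ i : Fin 3, coeff (Finsupp.single i 3) f := by
  rw [LL1, LinearMap.sum_apply]
  rfl

lemma LL2_apply (f : MvPolynomial (Fin 3) k) :
    LL2 k f = coeff (Finsupp.single 0 1 + Finsupp.single 1 1 + Finsupp.single 2 1) f := rfl

lemma coeff_mul_of_mem {f g : MvPolynomial (Fin 3) k} (hf : f ∈ (idealOfVars (Fin 3) k) ^ 3)
    {d : Fin 3 →₀ ℕ} (hd : d.degree = 3) : coeff d (g * f) = coeff 0 g * coeff d f := by
  classical
  rw [mem_pow_idealOfVars_iff'] at hf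
  rw [coeff_mul, Finset.sum_eq_single (0, d)]
  · rintro ⟨a, b⟩ hab hne
    rw [Finset.HasAntidiagonal.mem_antidiagonal] at hab
    simp only at hab
    have h1 : a.degree + b.degree = 3 := by rw [← map_add, hab, hd]
    by_cases ha : a.degree = 0
    · rw [Finsupp.degree_eq_zero_iff] at ha
      subst ha
      rw [zero_add] at hab
      subst hab
      exact absurd rfl hne
    · rw [hf b (by omega), mul_zero]
  · intro h
    exact absurd (by simp) h

lemma degree_t : (Finsupp.single 0 1 + Finsupp.single 1 1 + Finsupp.single 2 1 :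
    Fin 3 →₀ ℕ).degree = 3 := by
  rw [map_add, map_add, Finsupp.degree_single, Finsupp.degree_single, Finsupp.degree_single]

lemma LL1_mul {f g : MvPolynomial (Fin 3) k} (hf : f ∈ (idealOfVars (Fin 3) k) ^ 3) :
    LL1 k (g * f) = coeff 0 g * LL1 k f := by
  rw [LL1_apply, LL1_apply, Finset.mul_sum]
  refine Finset.sum_congr rfl fun i _ => ?_
  rw [coeff_mul_of_mem hf (Finsupp.degree_single _ _)]

lemma LL2_mul {f g : MvPolynomial (Fin 3) k} (hf : f ∈ (idealOfVars (Fin 3) k) ^ 3) :
    LL2 k (g * f) = coeff 0 g * LL2 k f := by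
  rw [LL2_apply, LL2_apply, coeff_mul_of_mem hf degree_t]

/-- the ideal of the example -/
noncomputable def exI (k : Type u) [Field k] : Ideal (MvPolynomial (Fin 3) k) where
  carrier := {f | f ∈ (idealOfVars (Fin 3) k) ^ 3 ∧ LL1 k f = 0 ∧ LL2 k f = 0}
  add_mem' := by
    rintro a b ⟨ha, ha1, ha2⟩ ⟨hb, hb1, hb2⟩
    exact ⟨Ideal.add_mem _ ha hb, by rw [map_add, ha1, hb1, add_zero],
      by rw [map_add, ha2, hb2, add_zero]⟩
  zero_mem' := ⟨Ideal.zero_mem _, map_zero _, map_zero _⟩
  smul_mem' := by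
    rintro c f ⟨hf, hf1, hf2⟩
    refine ⟨Ideal.mul_mem_left _ _ hf, ?_, ?_⟩
    · rw [smul_eq_mul, LL1_mul hf, hf1, mul_zero]
    · rw [smul_eq_mul, LL2_mul hf, hf2, mul_zero]

lemma mem_exI {f : MvPolynomial (Fin 3) k} :
    f ∈ exI k ↔ f ∈ (idealOfVars (Fin 3) k) ^ 3 ∧ LL1 k f = 0 ∧ LL2 k f = 0 := Iff.rfl

lemma exI_le : exI k ≤ (idealOfVars (Fin 3) k) ^ 3 := fun _ hf => hf.1

lemma LL1_zero {f : MvPolynomial (Fin 3) k} (hf : f ∈ (idealOfVars (Fin 3) k) ^ 4) :
    LL1 k f = 0 := by
  rw [mem_pow_idealOfVars_iff'] at hf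
  rw [LL1_apply]
  refine Finset.sum_eq_zero fun i _ => hf _ ?_
  rw [Finsupp.degree_single]
  norm_num

lemma LL2_zero {f : MvPolynomial (Fin 3) k} (hf : f ∈ (idealOfVars (Fin 3) k) ^ 4) :
    LL2 k f = 0 := by
  rw [mem_pow_idealOfVars_iff'] at hf
  rw [LL2_apply]
  refine hf _ ?_
  rw [degree_t]
  norm_num

lemma le_exI : (idealOfVars (Fin 3) k) ^ 4 ≤ exI k := by
  intro f hf
  exact ⟨Ideal.pow_le_pow_right (by norm_num) hf, LL1_zero hf, LL2_zero hf⟩

lemma exI_homogeneous {f : MvPolynomial (Fin 3) k} (hf : f ∈ exI k) (i : ℕ) :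
    homogeneousComponent i f ∈ exI k := by
  obtain ⟨h0, h1, h2⟩ := mem_exI.mp hf
  rw [mem_pow_idealOfVars_iff'] at h0
  refine mem_exI.mpr ⟨?_, ?_, ?_⟩
  · rw [mem_pow_idealOfVars_iff']
    intro d hd
    rw [coeff_homogeneousComponent, h0 d hd, ite_self]
  · rw [LL1_apply] at h1 ⊢
    simp only [coeff_homogeneousComponent, Finsupp.degree_single]
    by_cases hi : 3 = i
    · simpa [hi] using h1
    · simp [hi]
  · rw [LL2_apply] at h2 ⊢
    rw [coeff_homogeneousComponent, h2, ite_self]

/-- The colon of the ideal by the variables is the cube of the maximal ideal. -/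
lemma mem_cube {f : MvPolynomial (Fin 3) k} (h : ∀ l, X l * f ∈ exI k) :
    f ∈ (idealOfVars (Fin 3) k) ^ 3 := by
  classical
  rw [mem_pow_idealOfVars_iff']
  intro d hd
  by_cases h2 : d.degree < 2
  · have h3 := (mem_exI.mp (h 0)).1
    rw [mem_pow_idealOfVars_iff'] at h3
    have h4 := h3 (Finsupp.single 0 1 + d) (by
      rw [map_add, Finsupp.degree_single]
      omega)
    rwa [coeff_X_mul] at h4
  · have hd2 : d.degree = 2 := by omega
    have hd0 : d ≠ 0 := by
      rintro rfl
      simp at hd2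
    obtain ⟨i, hi⟩ := Finsupp.ne_iff.mp hd0
    have hi' : Finsupp.single i 1 ≤ d := by
      rw [Finsupp.single_le_iff]
      exact Nat.one_le_iff_ne_zero.mpr hi
    obtain ⟨e, rfl⟩ := le_iff_exists_add.mp hi'
    rw [map_add, Finsupp.degree_single] at hd2
    obtain ⟨j, rfl⟩ := degree_eq_one (d := e) (by omega)
    have key1 : ∀ i : Fin 3, coeff (Finsupp.single i 1 + Finsupp.single i 1) f = 0 := by
      intro i
      have h5 := (mem_exI.mp (h i)).2.1
      rw [LL1_apply, Finset.sum_eq_single i] at h5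
      · have h6 : (Finsupp.single i 3 : Fin 3 →₀ ℕ) =
            Finsupp.single i 1 + (Finsupp.single i 1 + Finsupp.single i 1) := by
          rw [← Finsupp.single_add, ← Finsupp.single_add, show 1 + (1 + 1) = 3 from rfl]
        rwa [h6, coeff_X_mul] at h5
      · intro b _ hb
        rw [coeff_X_mul', if_neg]
        rw [Finsupp.mem_support_iff, Finsupp.single_apply, if_neg hb]
        simp
      · intro h7
        exact absurd (Finset.mem_univ _) h7
    have key2 : ∀ (l : Fin 3) (d : Fin 3 →₀ ℕ), Finsupp.single 0 1 + Finsupp.single 1 1 +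
        Finsupp.single 2 1 = Finsupp.single l 1 + d → coeff d f = 0 := by
      intro l d hd
      have h5 := (mem_exI.mp (h l)).2.2
      rwa [LL2_apply, hd, coeff_X_mul] at h5
    fin_cases i <;> fin_cases j
    · exact key1 0
    · exact key2 2 _ (by rw [add_comm]; rfl)
    · exact key2 1 _ (by simp only [Fin.isValue, Fin.zero_eta, Fin.reduceFinMk]; abel)
    · exact key2 2 _ (by simp only [Fin.isValue, Fin.zero_eta, Fin.mk_one]; abel)
    · exact key1 1
    · exact key2 0 _ (by simp only [Fin.isValue, Fin.mk_one, Fin.reduceFinMk]; abel)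
    · exact key2 1 _ (by simp only [Fin.isValue, Fin.zero_eta, Fin.reduceFinMk]; abel)
    · exact key2 0 _ (by simp only [Fin.isValue, Fin.mk_one, Fin.reduceFinMk]; abel)
    · exact key1 2

lemma mI_pow_four : (mI (xb (exI k))) ^ 4 = ⊥ := by
  rw [eq_bot_iff]
  intro r hr
  obtain ⟨f, hf, rfl⟩ := mem_mI_pow _ hr
  rw [Ideal.mem_bot, Ideal.Quotient.eq_zero_iff_mem]
  exact le_exI hf

lemma idealOfVars_ne_top : (idealOfVars (Fin 3) k) ≠ ⊤ := by
  rw [Ne, Ideal.eq_top_iff_one]
  intro h
  have h1 : (1 : MvPolynomial (Fin 3) k) ∈ (idealOfVars (Fin 3) k) ^ 1 := by rwa [pow_one]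
  rw [mem_pow_idealOfVars_iff'] at h1
  have := h1 0 (by simp)
  simp at this

lemma exI_le_vars : exI k ≤ idealOfVars (Fin 3) k :=
  exI_le.trans (Ideal.pow_le_self (by norm_num))

lemma exI_ne_top : exI k ≠ ⊤ := by
  intro h
  apply idealOfVars_ne_top (k := k)
  rw [eq_top_iff, ← h]
  exact exI_le_vars

lemma mI_ne_top : mI (xb (exI k)) ≠ ⊤ := by
  rw [mI_xb, Ne, Ideal.eq_top_iff_one]
  intro h
  obtain ⟨f, hf, hf1⟩ := (Ideal.mem_map_iff_of_surjective _ Ideal.Quotient.mk_surjective).mp h
  have h2 : Ideal.Quotient.mk (exI k) f = Ideal.Quotient.mk (exI k) 1 := hf1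
  rw [Ideal.Quotient.eq] at h2
  have h3 := Ideal.sub_mem _ hf (exI_le_vars h2)
  rw [sub_sub_cancel] at h3
  exact idealOfVars_ne_top ((Ideal.eq_top_iff_one _).mpr h3)

instance : Nontrivial (MvPolynomial (Fin 3) k ⧸ exI k) :=
  Ideal.Quotient.nontrivial_iff.mpr exI_ne_top

instance finite_ex [CharZero k] : Module.Finite k (MvPolynomial (Fin 3) k ⧸ exI k) := by
  have h1 : Algebra.IsIntegral k (MvPolynomial (Fin 3) k ⧸ exI k) := by
    refine ⟨fun r => ?_⟩
    obtain ⟨c, hc⟩ := exists_const (lowDegree (exI k) exI_le) r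
    have h2 : (r - algebraMap k _ c) ^ 4 = 0 := by
      have h3 := Ideal.pow_mem_pow hc 4
      rwa [mI_pow_four, Ideal.mem_bot] at h3
    have h4 : IsIntegral k (r - algebraMap k _ c) := by
      refine IsIntegral.of_pow (n := 4) (by norm_num) ?_
      rw [h2]
      exact isIntegral_zero
    have h5 := h4.add (isIntegral_algebraMap (R := k) (x := c))
    rwa [sub_add_cancel] at h5
  exact Algebra.IsIntegral.finite

lemma isGolod_ex [CharZero k] : IsGolod k (xb (exI k)) :=
  isGolod_of_lowDegree (lowDegree (exI k) exI_le) mI_pow_four mI_ne_top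

/-- auxiliary specialisation -/
noncomputable def spec (k : Type u) [Field k] (j : ℕ) :
    MvPolynomial (Fin 3) k →ₐ[k] MvPolynomial (Fin 3) k :=
  aeval fun i : Fin 3 => if i.1 < j then 0 else X i

lemma spec_spec (j : ℕ) (f : MvPolynomial (Fin 3) k) :
    spec k (j + 1) (spec k j f) = spec k (j + 1) f := by
  have : (spec k (j + 1)).comp (spec k j) = spec k (j + 1) := by
    apply algHom_ext
    intro i
    rw [AlgHom.comp_apply, spec, spec, aeval_X, aeval_X]
    by_cases h : i.1 < j
    · rw [if_pos h, if_pos (by omega), map_zero]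
    · rw [if_neg h, aeval_X]
  exact congrArg (fun φ => φ f) this

/-- the chain of primes -/
noncomputable def PP (k : Type u) [Field k] (j : ℕ) : Ideal (MvPolynomial (Fin 3) k) :=
  RingHom.ker (spec k j)

instance (j : ℕ) : (PP k j).IsPrime := RingHom.ker_isPrime _

lemma PP_lt (j : ℕ) (hj : j < 3) : PP k j < PP k (j + 1) := by
  refine lt_of_le_of_ne ?_ ?_
  · intro f hf
    rw [PP, RingHom.mem_ker] at hf ⊢
    rw [← spec_spec, hf, map_zero]
  · intro h
    have h1 : X ⟨j, hj⟩ ∈ PP k (j + 1) := by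
      rw [PP, RingHom.mem_ker, spec, aeval_X, if_pos (by simp)]
    rw [← h, PP, RingHom.mem_ker, spec, aeval_X, if_neg (by simp)] at h1
    exact X_ne_zero _ h1

lemma le_height_PP (j : ℕ) (hj : j ≤ 3) : (j : ℕ∞) ≤ (PP k j).height := by
  induction j with
  | zero => simp
  | succ j ih =>
    have h1 := ih (by omega)
    have h2 := Ideal.height_add_one_le_of_lt_of_isPrime (PP_lt (k := k) j (by omega))
    refine le_trans ?_ h2
    push_cast
    gcongr

lemma PP_three_le : PP k 3 ≤ idealOfVars (Fin 3) k := by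
  intro f hf
  rw [PP, RingHom.mem_ker, spec] at hf
  have h1 : (fun i : Fin 3 => if i.1 < 3 then (0 : MvPolynomial (Fin 3) k) else X i) =
      fun _ => 0 := by
    funext i
    rw [if_pos i.2]
  rw [h1, aeval_zero'] at hf
  have h2 : f ∈ (idealOfVars (Fin 3) k) ^ 1 := by
    rw [mem_pow_idealOfVars_iff']
    intro d hd
    have hd0 : d.degree = 0 := by omega
    rw [Finsupp.degree_eq_zero_iff] at hd0
    subst hd0
    have h3 := (FaithfulSMul.algebraMap_injective k (MvPolynomial (Fin 3) k)) (hf.trans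
      (map_zero _).symm)
    exact h3
  rwa [pow_one] at h2

lemma vars_le_of_prime {J : Ideal (MvPolynomial (Fin 3) k)} [J.IsPrime] (h : exI k ≤ J) :
    idealOfVars (Fin 3) k ≤ J := by
  rw [idealOfVars, Ideal.span_le]
  rintro _ ⟨l, rfl⟩
  have h1 : (X l : MvPolynomial (Fin 3) k) ^ 4 ∈ J := by
    apply h
    apply le_exI
    exact Ideal.pow_mem_pow (Ideal.subset_span (Set.mem_range_self l)) 4
  exact Ideal.IsPrime.mem_of_pow_mem inferInstance 4 h1

lemma height_exI : (exI k).height = 3 := by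
  apply le_antisymm
  · have h1 := Ideal.height_le_ringKrullDim_of_ne_top (exI_ne_top (k := k))
    rw [MvPolynomial.ringKrullDim_of_isNoetherianRing, ringKrullDim_eq_zero_of_field,
      zero_add, Nat.card_eq_fintype_card, Fintype.card_fin] at h1
    exact WithBot.coe_le_coe.mp h1
  · rw [Ideal.height_eq_inf_minimalPrimes]
    refine le_iInf₂ fun J hJ => ?_
    have := hJ.isPrime
    exact (le_height_PP (k := k) 3 le_rfl).trans
      (Ideal.height_mono (PP_three_le.trans (vars_le_of_prime hJ.1.2)))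

lemma dim_ex : ringKrullDim (MvPolynomial (Fin 3) k ⧸ exI k) = 0 := by
  rw [← ringKrullDimZero_iff_ringKrullDim_eq_zero,
    Ideal.krullDimLE_zero_quotient_iff_forall_minimalPrimes_isMaximal]
  intro J hJ
  have := hJ.isPrime
  have h1 := vars_le_of_prime hJ.1.2
  have h2 : (idealOfVars (Fin 3) k).IsMaximal := by
    have h3 : idealOfVars (Fin 3) k = RingHom.ker (constantCoeff (σ := Fin 3) (R := k)) := by
      apply le_antisymm
      · rw [idealOfVars, Ideal.span_le]
        rintro _ ⟨l, rfl⟩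
        simp [RingHom.mem_ker]
      · intro f hf
        have h2 : f ∈ (idealOfVars (Fin 3) k) ^ 1 := by
          rw [mem_pow_idealOfVars_iff']
          intro d hd
          have hd0 : d.degree = 0 := by omega
          rw [Finsupp.degree_eq_zero_iff] at hd0
          subst hd0
          exact hf
        rwa [pow_one] at h2
    rw [h3]
    exact RingHom.ker_isMaximal_of_surjective (constantCoeff (σ := Fin 3) (R := k))
      (fun c => ⟨C c, by simp⟩)
  rw [← h2.eq_of_le Ideal.IsPrime.ne_top' h1]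
  exact h2

end Ex

end Pool.Agent.Helper55
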