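import Pool.Agent.Helper55.GolodRes

/-!
# The terms of the Golod resolution are free; the resolution is minimal
-/

namespace Pool.Agent.Helper55

open CliffordAlgebra (contractLeft involute)

section Ez

variable {R : Type*} [CommRing R] {n : ℕ}

instance Ez_free (j : ℤ) : Module.Free R (Ez R n j) := by
  rcases lt_or_ge j 0 with hj | hj
  · rw [Ez_neg hj]
    infer_instance
  · obtain ⟨i, rfl⟩ := Int.eq_ofNat_of_zero_le hj
    exact inferInstanceAs (Module.Free R (⋀[R]^i (Fin n → R)))

instance Ez_finite (j : ℤ) : Module.Finite R (Ez R n j) := by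
  rcases lt_or_ge j 0 with hj | hj
  · rw [Ez_neg hj]
    infer_instance
  · obtain ⟨i, rfl⟩ := Int.eq_ofNat_of_zero_le hj
    exact inferInstanceAs (Module.Finite R (⋀[R]^i (Fin n → R)))

lemma finrank_Ez_nat [Nontrivial R] (i : ℕ) : Module.finrank R (Ez R n (i : ℤ)) = n.choose i := by
  have : Module.finrank R (⋀[R]^i (Fin n → R)) = (Module.finrank R (Fin n → R)).choose i :=
    exteriorPower.finrank_eq R i
  rw [Module.finrank_fin_fun] at this
  exact this

lemma ι_mul_smul_mem {J : Ideal R} {i : ℕ} (a : Fin n → R) {b : ExteriorAlgebra R (Fin n → R)}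
    (hb : b ∈ J • (⋀[R]^i (Fin n → R))) :
    ExteriorAlgebra.ι R a * b ∈ J • (⋀[R]^(i + 1) (Fin n → R)) := by
  refine Submodule.smul_induction_on hb ?_ ?_
  · intro r hr z hz
    rw [mul_smul_comm]
    exact Submodule.smul_mem_smul hr (ι_mul_mem a hz)
  · intro u v hu hv
    rw [mul_add]
    exact Submodule.add_mem _ hu hv

lemma dK_mem_smul (x : Fin n → R) {i : ℕ} {y : ExteriorAlgebra R (Fin n → R)}
    (hy : y ∈ ⋀[R]^(i + 1) (Fin n → R)) : dK x y ∈ mI x • (⋀[R]^i (Fin n → R)) := by
  have key : ∀ (i : ℕ) (y : ExteriorAlgebra R (Fin n → R)), y ∈ ⋀[R]^i (Fin n → R) →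
      (i = 0 → dK x y = 0) ∧ ∀ j, i = j + 1 → dK x y ∈ mI x • (⋀[R]^j (Fin n → R)) := by
    apply ext_induction
    · intro r
      refine ⟨fun _ => dK_algebraMap x r, fun j hj => by omega⟩
    · rintro i a y hy ⟨h1, h2⟩
      refine ⟨fun h => by omega, fun j hj => ?_⟩
      obtain rfl : i = j := by omega
      rw [dK_ι_mul]
      apply Submodule.sub_mem
      · apply Submodule.smul_mem_smul _ hy
        rw [Fintype.linearCombination_apply]
        exact Submodule.sum_mem _ fun l _ => Ideal.mul_mem_left _ _ (x_mem l)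
      · rcases Nat.eq_zero_or_pos i with h | h
        · rw [h1 h, mul_zero]
          exact Submodule.zero_mem _
        · obtain ⟨l, rfl⟩ : ∃ l, i = l + 1 := ⟨i - 1, by omega⟩
          exact ι_mul_smul_mem a (h2 l rfl)
    · rintro i y z hy hz ⟨h1, h2⟩ ⟨h3, h4⟩
      refine ⟨fun h => by rw [map_add, h1 h, h3 h, add_zero], fun j hj => ?_⟩
      rw [map_add]
      exact Submodule.add_mem _ (h2 j hj) (h4 j hj)
  exact (key _ y hy).2 i rfl

lemma Ez_dK_smul (x : Fin n → R) {j : ℤ} {y : ExteriorAlgebra R (Fin n → R)}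
    (hy : y ∈ Ez R n (j + 1)) : dK x y ∈ mI x • Ez R n j := by
  rcases lt_or_ge (j + 1) 0 with hi | hi
  · rw [Ez_eq_zero hi hy, map_zero]
    exact Submodule.zero_mem _
  rcases lt_or_ge j 0 with hj | hj
  · have : j + 1 = ((0 : ℕ) : ℤ) := by omega
    rw [this] at hy
    rw [dK_zero x hy]
    exact Submodule.zero_mem _
  obtain ⟨j, rfl⟩ := Int.eq_ofNat_of_zero_le hj
  rw [← Nat.cast_succ] at hy
  exact dK_mem_smul x hy

lemma Ez_mul_smul {J : Ideal R} {i j : ℤ} {a b : ExteriorAlgebra R (Fin n → R)}
    (ha : a ∈ Ez R n i) (hb : b ∈ J • Ez R n j) : a * b ∈ J • Ez R n (i + j) := by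
  refine Submodule.smul_induction_on hb ?_ ?_
  · intro r hr z hz
    rw [mul_smul_comm]
    exact Submodule.smul_mem_smul hr (Ez_mul ha hz)
  · intro u v hu hv
    rw [mul_add]
    exact Submodule.add_mem _ hu hv

end Ez

namespace GolodData

variable {R : Type*} [CommRing R] {n : ℕ} {x : Fin n → R} {V : Type*} [Fintype V]
  (G : GolodData x V)

/-- the words of weight at most `N` -/
abbrev W (N : ℤ) : Type _ := {w : List V // G.wt w ≤ N}

instance W_finite (N : ℤ) : Finite (G.W N) := by
  have h : {w : List V | G.wt w ≤ N} ⊆ {w : List V | w.length ≤ N.toNat} := by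
    intro w hw
    have := G.wt_ge w
    simp only [Set.mem_ofPred_eq] at *
    omega
  exact ((List.finite_length_le V N.toNat).subset h).to_subtype

open Classical in
/-- The terms of the Golod resolution as finite products. -/
noncomputable def FFequiv (N : ℤ) :
    G.FF N ≃ₗ[R] ((w : G.W N) → Ez R n (N - G.wt w.1)) where
  toFun f w := ⟨f.1 w.1, f.2 w.1⟩
  invFun g := ⟨fun w => if h : G.wt w ≤ N then (g ⟨w, h⟩ : ExteriorAlgebra R (Fin n → R)) else 0,
    by
      intro w
      by_cases h : G.wt w ≤ N
      · simp only [dif_pos h]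
        exact (g ⟨w, h⟩).2
      · simp only [dif_neg h]
        exact Submodule.zero_mem _⟩
  map_add' f g := rfl
  map_smul' r f := rfl
  left_inv f := by
    apply Subtype.ext
    funext w
    by_cases h : G.wt w ≤ N
    · simp only [dif_pos h]
    · simp only [dif_neg h]
      symm
      exact Ez_eq_zero (by omega) (f.2 w)
  right_inv g := by
    funext w
    apply Subtype.ext
    simp only [dif_pos w.2]

instance FF_free (N : ℤ) : Module.Free R (G.FF N) := by
  have : Module.Free R ((w : G.W N) → Ez R n (N - G.wt w.1)) := inferInstance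
  exact Module.Free.of_equiv (G.FFequiv N).symm

instance FF_finite (N : ℤ) : Module.Finite R (G.FF N) := by
  have : Module.Finite R ((w : G.W N) → Ez R n (N - G.wt w.1)) := inferInstance
  exact Module.Finite.equiv (G.FFequiv N).symm

lemma mem_smul_FF {N : ℤ} {f : List V → ExteriorAlgebra R (Fin n → R)}
    (hf : ∀ w, f w ∈ mI x • Ez R n (N - G.wt w)) : f ∈ mI x • G.FF N := by
  classical
  have := Fintype.ofFinite (G.W N)
  have hsum : f = ∑ w : G.W N, Pi.single w.1 (f w.1) := by
    funext u
    rw [Finset.sum_apply]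
    by_cases h : G.wt u ≤ N
    · rw [Finset.sum_eq_single ⟨u, h⟩]
      · simp
      · intro w _ hw
        rw [Pi.single_apply, if_neg]
        intro h'
        apply hw
        apply Subtype.ext
        exact h'.symm
      · intro h'
        exact absurd (Finset.mem_univ _) h'
    · have h0 : f u = 0 := Ez_eq_zero (by omega) (Submodule.smul_le_right (hf u))
      rw [h0]
      symm
      apply Finset.sum_eq_zero
      intro w _
      rw [Pi.single_apply, if_neg]
      intro h'
      apply h
      rw [h']
      exact w.2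
  rw [hsum]
  refine Submodule.sum_mem _ fun w _ => ?_
  refine Submodule.smul_induction_on (p := fun y => (Pi.single w.1 y :
    List V → ExteriorAlgebra R (Fin n → R)) ∈ mI x • G.FF N) (hf w.1) ?_ ?_
  · intro r hr y hy
    rw [Pi.single_smul']
    apply Submodule.smul_mem_smul hr
    intro u
    rw [Pi.single_apply]
    split_ifs with h
    · rw [h]
      exact hy
    · exact Submodule.zero_mem _
  · intro y z hy hz
    rw [Pi.single_add]
    exact Submodule.add_mem _ hy hz

/-- Minimality of the Golod resolution. -/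
lemma D_mem_smul {N : ℤ} {f : List V → ExteriorAlgebra R (Fin n → R)} (hf : f ∈ G.FF (N + 1)) :
    G.D f ∈ mI x • G.FF N := by
  apply G.mem_smul_FF
  intro w
  rw [D_apply]
  apply Submodule.add_mem
  · apply Ez_dK_smul
    have := hf w
    rwa [show N + 1 - G.wt w = N - G.wt w + 1 by ring] at this
  · refine Submodule.sum_mem _ fun v _ => ?_
    have h1 := Ez_mul_smul (Ez_involute (hf (v :: w)))
      (show G.z v ∈ mI x • Ez R n (G.dg v : ℤ) from G.z_small v)
    rw [wt_cons] at h1
    rwa [show N + 1 - (G.dg v + 1 + G.wt w) + G.dg v = N - G.wt w by ring] at h1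

end GolodData

end Pool.Agent.Helper55
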