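import Pool.Agent.Helper55.KoszulHomology

/-!
# Quotients of polynomial rings by ideals between the third and fourth power of the maximal ideal
-/

namespace Pool.Agent.Helper55

open MvPolynomial

section Quot

variable {k : Type*} [Field k] {n : ℕ} (I : Ideal (MvPolynomial (Fin n) k))

/-- the images of the variables -/
noncomputable def xb (l : Fin n) : MvPolynomial (Fin n) k ⧸ I := Ideal.Quotient.mk I (X l)

lemma mI_xb : mI (xb I) = (idealOfVars (Fin n) k).map (Ideal.Quotient.mk I) := by
  rw [mI, idealOfVars, Ideal.map_span]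
  congr 1
  rw [← Set.range_comp]
  rfl

/-- descend a linear form to the quotient -/
noncomputable def liftF (φ : MvPolynomial (Fin n) k →ₗ[k] k) (h : ∀ f ∈ I, φ f = 0) :
    (MvPolynomial (Fin n) k ⧸ I) →ₗ[k] k :=
  ((I.restrictScalars k).liftQ φ (by
    intro f hf
    exact h f hf)) ∘ₗ
    (Submodule.Quotient.restrictScalarsEquiv k I).symm.toLinearMap

lemma liftF_mk (φ : MvPolynomial (Fin n) k →ₗ[k] k) (h : ∀ f ∈ I, φ f = 0)
    (f : MvPolynomial (Fin n) k) : liftF I φ h (Ideal.Quotient.mk I f) = φ f := rfl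

lemma mem_mI_pow {j : ℕ} {r : MvPolynomial (Fin n) k ⧸ I} (hr : r ∈ (mI (xb I)) ^ j) :
    ∃ f ∈ (idealOfVars (Fin n) k) ^ j, Ideal.Quotient.mk I f = r := by
  rw [mI_xb, ← Ideal.map_pow] at hr
  exact (Ideal.mem_map_iff_of_surjective _ Ideal.Quotient.mk_surjective).mp hr

lemma mk_mem_mI_pow {j : ℕ} {f : MvPolynomial (Fin n) k}
    (hf : f ∈ (idealOfVars (Fin n) k) ^ j) : Ideal.Quotient.mk I f ∈ (mI (xb I)) ^ j := by
  rw [mI_xb, ← Ideal.map_pow]
  exact Ideal.mem_map_of_mem _ hf

lemma degree_eq_one {d : Fin n →₀ ℕ} (h : d.degree = 1) : ∃ l, d = Finsupp.single l 1 := by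
  classical
  have hd : d ≠ 0 := by
    rintro rfl
    simp at h
  obtain ⟨l, hl⟩ := Finsupp.ne_iff.mp hd
  refine ⟨l, ?_⟩
  have hl' : Finsupp.single l 1 ≤ d := by
    rw [Finsupp.single_le_iff]
    exact Nat.one_le_iff_ne_zero.mpr hl
  obtain ⟨e, rfl⟩ := le_iff_exists_add.mp hl'
  rw [map_add, Finsupp.degree_single] at h
  have he : e.degree = 0 := by omega
  rw [Finsupp.degree_eq_zero_iff] at he
  rw [he, add_zero]

lemma lowDegree [CharZero k] (hI : I ≤ (idealOfVars (Fin n) k) ^ 3) : LowDegree k (xb I) where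
  expand := by
    intro r
    obtain ⟨f, rfl⟩ := Ideal.Quotient.mk_surjective r
    refine ⟨coeff 0 f, fun l => coeff (Finsupp.single l 1) f, ?_⟩
    have e : Ideal.Quotient.mk I f - algebraMap k _ (coeff 0 f) -
        ∑ l, coeff (Finsupp.single l 1) f • xb I l =
        Ideal.Quotient.mk I (f - C (coeff 0 f) - ∑ l, coeff (Finsupp.single l 1) f • X l) := by
      rw [map_sub, map_sub, map_sum]
      rfl
    rw [e]
    apply mk_mem_mI_pow
    rw [mem_pow_idealOfVars_iff']
    intro d hd
    have h2 : d.degree = 0 ∨ d.degree = 1 := by omega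
    rcases h2 with h2 | h2
    · rw [Finsupp.degree_eq_zero_iff] at h2
      subst h2
      simp [coeff_sum]
    · obtain ⟨l, rfl⟩ := degree_eq_one h2
      have h3 : (0 : Fin n →₀ ℕ) ≠ Finsupp.single l 1 := by
        intro h
        have := congrArg Finsupp.degree h
        simp at this
      simp only [coeff_sub, coeff_C, if_neg h3, sub_zero, coeff_sum, coeff_smul, coeff_X,
        smul_eq_mul]
      rw [Finset.sum_eq_single l]
      · simp
      · intro b _ hb
        rw [if_neg, mul_zero]
        intro h
        exact hb (Finsupp.single_left_injective one_ne_zero h)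
      · intro h
        exact absurd (Finset.mem_univ _) h
  theta1 := by
    intro l
    have hφ : ∀ j, 2 ≤ j → ∀ f ∈ (idealOfVars (Fin n) k) ^ j,
        lcoeff k (Finsupp.single l 1) f = 0 := by
      intro j hj f hf
      rw [mem_pow_idealOfVars_iff'] at hf
      apply hf
      rw [Finsupp.degree_single]
      omega
    refine ⟨liftF I (lcoeff k (Finsupp.single l 1)) (fun f hf => hφ 3 (by norm_num) f (hI hf)),
      ?_, ?_, ?_⟩
    · intro r hr
      obtain ⟨f, hf, rfl⟩ := mem_mI_pow I hr
      rw [liftF_mk]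
      exact hφ 2 le_rfl f hf
    · have : (1 : MvPolynomial (Fin n) k ⧸ I) = Ideal.Quotient.mk I 1 := rfl
      rw [this, liftF_mk, lcoeff_apply, coeff_one, if_neg]
      intro h
      have := congrArg Finsupp.degree h
      simp at this
    · intro a
      rw [xb, liftF_mk, lcoeff_apply, coeff_X]
      congr 1
      rw [eq_iff_iff]
      exact ⟨fun h => Finsupp.single_left_injective one_ne_zero h, fun h => by rw [h]⟩
  theta2 := by
    intro l m
    classical
    set φ : MvPolynomial (Fin n) k →ₗ[k] k :=
      (if l = m then (2 : k) else 1) • lcoeff k (Finsupp.single l 1 + Finsupp.single m 1) with hφd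
    have hφ : ∀ j, 3 ≤ j → ∀ f ∈ (idealOfVars (Fin n) k) ^ j, φ f = 0 := by
      intro j hj f hf
      rw [mem_pow_idealOfVars_iff'] at hf
      rw [hφd, LinearMap.smul_apply, lcoeff_apply, hf, smul_zero]
      rw [map_add, Finsupp.degree_single, Finsupp.degree_single]
      omega
    refine ⟨liftF I φ (fun f hf => hφ 3 le_rfl f (hI hf)), ?_, ?_, ?_, ?_⟩
    · intro r hr
      obtain ⟨f, hf, rfl⟩ := mem_mI_pow I hr
      rw [liftF_mk]
      exact hφ 3 le_rfl f hf
    · have : (1 : MvPolynomial (Fin n) k ⧸ I) = Ideal.Quotient.mk I 1 := rfl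
      have h0 : ¬ ((0 : Fin n →₀ ℕ) = Finsupp.single l 1 + Finsupp.single m 1) := by
        intro h
        have := congrArg Finsupp.degree h
        simp at this
      rw [this, liftF_mk, hφd, LinearMap.smul_apply, lcoeff_apply, coeff_one, if_neg h0, smul_zero]
    · intro a
      have h0 : ¬ ((Finsupp.single a 1 : Fin n →₀ ℕ) =
          Finsupp.single l 1 + Finsupp.single m 1) := by
        intro h
        have := congrArg Finsupp.degree h
        simp at this
      rw [xb, liftF_mk, hφd, LinearMap.smul_apply, lcoeff_apply, coeff_X, if_neg h0, smul_zero]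
    · intro a b
      have : xb I a * xb I b = Ideal.Quotient.mk I (X a * X b) := (map_mul _ _ _).symm
      rw [this, liftF_mk, hφd, LinearMap.smul_apply, lcoeff_apply]
      have e : (X a * X b : MvPolynomial (Fin n) k) =
          monomial (Finsupp.single a 1 + Finsupp.single b 1) 1 := by
        rw [X, X, monomial_mul, one_mul]
      rw [e, coeff_monomial, smul_eq_mul]
      have e2 : (Finsupp.single a 1 + Finsupp.single b 1 : Fin n →₀ ℕ) =
          Finsupp.single l 1 + Finsupp.single m 1 ↔ (a = l ∧ b = m) ∨ (a = m ∧ b = l) := by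
        rw [Finsupp.single_add_single_eq_single_add_single one_ne_zero one_ne_zero]
        simp
      rw [if_congr e2 rfl rfl]
      by_cases h1 : a = l ∧ b = m
      · obtain ⟨rfl, rfl⟩ := h1
        by_cases h2 : a = b
        · subst h2
          simp
          norm_num
        · have h3 : ¬ (a = b ∧ b = a) := fun h => h2 h.1
          simp [h2]
      · by_cases h2 : a = m ∧ b = l
        · obtain ⟨rfl, rfl⟩ := h2
          have h3 : ¬ b = a := by
            intro h
            exact h1 ⟨h.symm, h⟩
          simp [h3]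
        · simp [h1, h2]

end Quot

end Pool.Agent.Helper55
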