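import Pool.Agent.Helper55.GolodTor
import Pool.Agent.Helper55.QuotRing

/-!
# Golod rings: definition and the main criterion
-/

universe u

namespace Pool.Agent.Helper55

open CategoryTheory Limits MonoidalCategory

open CliffordAlgebra (contractLeft involute)

open scoped ModuleCat

section Defs

variable (k : Type u) [Field k] {R : Type u} [CommRing R] [Algebra k R] {n : ℕ} (x : Fin n → R)

/-- The `k`-dimension of `Tor_i^R(R/(x), R/(x))`. -/
noncomputable def torDim (i : ℕ) : ℕ :=
  Module.finrank k (((Tor (ModuleCat.{u} R) i).obj (ModuleCat.of R (R ⧸ mI x))).obj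
    (ModuleCat.of R (R ⧸ mI x)))

/-- The Poincaré series of the residue field. -/
noncomputable def poincareSeries : PowerSeries ℤ := PowerSeries.mk fun i => (torDim k x i : ℤ)

/-- The series with coefficient `dim_k H_i` at `t^(i+1)` for `i ≥ 1`, where `H_i` is the Koszul
homology of `R` on `x`. -/
noncomputable def koszulSeries : PowerSeries ℤ :=
  PowerSeries.mk fun j => if j ≤ 1 then 0 else (Module.finrank k (KoszulHomology x (j - 1)) : ℤ)

/-- The Golod property: equality in Serre's bound for the Poincaré series. -/
def IsGolod : Prop :=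
  poincareSeries k x * (1 - koszulSeries k x) = (1 + PowerSeries.X) ^ n

end Defs

section Finrank

variable {k : Type u} [Field k] {R : Type u} [CommRing R] [Algebra k R]

lemma finrank_of_iso {X Y : ModuleCat.{u} R} (e : X ≅ Y) :
    Module.finrank k X = Module.finrank k Y :=
  (e.toLinearEquiv.restrictScalars k).finrank_eq

lemma finrank_tensor {L F : Type u} [AddCommGroup L] [Module R L] [Module k L]
    [IsScalarTower k R L]
    [AddCommGroup F] [Module R F] [Module.Free R F] [Module.Finite R F] [Nontrivial R]
    [Module.Finite k L] :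
    Module.finrank k (ModuleCat.of R L ⊗ ModuleCat.of R F : ModuleCat.{u} R) =
      Module.finrank R F * Module.finrank k L := by
  let e1 : TensorProduct R L F ≃ₗ[R] (Fin (Module.finrank R F) → L) :=
    (LinearEquiv.lTensor L (Module.finBasis R F).equivFun) ≪≫ₗ
      TensorProduct.piScalarRight R R L (Fin (Module.finrank R F))
  let e2 : (ModuleCat.of R L ⊗ ModuleCat.of R F : ModuleCat.{u} R) ≃ₗ[R]
    (Fin (Module.finrank R F) → L) := e1
  rw [(e2.restrictScalars k).finrank_eq, Module.finrank_pi_fintype]
  simp

end Finrank

section Main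

variable {k : Type u} [Field k] {R : Type u} [CommRing R] [Algebra k R] {n : ℕ} {x : Fin n → R}
  {V : Type} [Fintype V] (G : GolodData x V)

lemma GolodData.torDim_eq [Nontrivial R] [Module.Finite k (R ⧸ mI x)] (N : ℕ) :
    torDim k x N = Module.finrank R (G.FF (N : ℤ)) * Module.finrank k (R ⧸ mI x) := by
  rw [torDim, finrank_of_iso (G.elemRes.torIso (J := mI x) (L := ModuleCat.of R (R ⧸ mI x)) (by
    intro r hr a
    obtain ⟨b, rfl⟩ := Ideal.Quotient.mk_surjective a
    change Ideal.Quotient.mk (mI x) (r * b) = 0
    rw [Ideal.Quotient.eq_zero_iff_mem]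
    exact Ideal.mul_mem_right _ _ hr) G.minimal N)]
  exact finrank_tensor (k := k) (L := R ⧸ mI x) (F := G.FF (N : ℤ))

end Main

end Pool.Agent.Helper55
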