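import Pool.Agent.Helper55.GolodFree

/-!
# The ranks of the terms of the Golod resolution
-/

namespace Pool.Agent.Helper55

namespace GolodData

variable {R : Type*} [CommRing R] {n : ℕ} {x : Fin n → R} {V : Type*} [Fintype V]
  (G : GolodData x V)

/-- splitting off the first letter -/
noncomputable def splitEquiv (N : ℤ) :
    G.FF N ≃ₗ[R] (Ez R n N × ((v : V) → G.FF (N - (G.dg v + 1)))) where
  toFun f := (⟨f.1 [], by
      have := f.2 []
      rwa [wt_nil, sub_zero] at this⟩, fun v => ⟨fun u => f.1 (v :: u), by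
      intro u
      have := f.2 (v :: u)
      rwa [wt_cons, ← sub_sub] at this⟩)
  invFun p := ⟨fun w => match w with
    | [] => (p.1 : ExteriorAlgebra R (Fin n → R))
    | v :: u => (p.2 v).1 u, by
      intro w
      rcases w with _ | ⟨v, u⟩
      · rw [wt_nil, sub_zero]
        exact p.1.2
      · rw [wt_cons, ← sub_sub]
        exact (p.2 v).2 u⟩
  map_add' f g := rfl
  map_smul' r f := rfl
  left_inv f := by
    apply Subtype.ext
    funext w
    rcases w with _ | ⟨v, u⟩
    · rfl
    · rfl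
  right_inv p := rfl

lemma FF_neg {N : ℤ} (hN : N < 0) : G.FF N = ⊥ := by
  rw [eq_bot_iff]
  intro f hf
  rw [Submodule.mem_bot]
  funext w
  apply Ez_eq_zero _ (hf w)
  have := G.wt_ge w
  omega

variable [Nontrivial R]

lemma finrank_FF (N : ℤ) : Module.finrank R (G.FF N) =
    Module.finrank R (Ez R n N) + ∑ v, Module.finrank R (G.FF (N - (G.dg v + 1))) := by
  rw [(G.splitEquiv N).finrank_eq, Module.finrank_prod, Module.finrank_pi_fintype]

lemma finrank_FF_neg {N : ℤ} (hN : N < 0) : Module.finrank R (G.FF N) = 0 := by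
  rw [G.FF_neg hN]
  exact finrank_bot R _

open PowerSeries in
/-- The generating function of the ranks. -/
theorem rank_series :
    (PowerSeries.mk fun N => (Module.finrank R (G.FF (N : ℤ)) : ℤ)) *
      (1 - ∑ v, (X : ℤ⟦X⟧) ^ (G.dg v + 1)) = (1 + X) ^ n := by
  ext N
  rw [mul_sub, mul_one, Finset.mul_sum, map_sub, map_sum, coeff_mk]
  simp only [coeff_mul_X_pow']
  have h1 : (coeff N) ((1 + X : ℤ⟦X⟧) ^ n) = (n.choose N : ℤ) := by
    have : ((1 + X : ℤ⟦X⟧) ^ n) = (((1 + Polynomial.X : Polynomial ℤ) ^ n : Polynomial ℤ) : ℤ⟦X⟧) := by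
      simp
    rw [this, Polynomial.coeff_coe, Polynomial.coeff_one_add_X_pow]
  rw [h1, G.finrank_FF, finrank_Ez_nat]
  push_cast
  rw [add_sub_assoc, add_eq_left, sub_eq_zero]
  refine Finset.sum_congr rfl fun v _ => ?_
  split_ifs with h
  · have e : ((N - (G.dg v + 1) : ℕ) : ℤ) = N - (G.dg v + 1) := by
      rw [Nat.cast_sub h]
      push_cast
      ring
    rw [coeff_mk, e]
  · rw [G.finrank_FF_neg (by omega)]
    rfl

end GolodData

end Pool.Agent.Helper55
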