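import Pool.Agent.Helper55.KoszulHomology

/-!
# The Golod resolution when all products of chosen cycles vanish
-/

namespace Pool.Agent.Helper55

open CliffordAlgebra (contractLeft involute)

section Ez

variable {R : Type*} [CommRing R] {n : ℕ}

/-- the exterior powers indexed by the integers (zero in negative degrees) -/
noncomputable def Ez (R : Type*) [CommRing R] (n : ℕ) :
    ℤ → Submodule R (ExteriorAlgebra R (Fin n → R))
  | Int.ofNat i => ⋀[R]^i (Fin n → R)
  | Int.negSucc _ => ⊥

lemma Ez_natCast (i : ℕ) : Ez R n (i : ℤ) = ⋀[R]^i (Fin n → R) := rfl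

lemma Ez_neg {j : ℤ} (hj : j < 0) : Ez R n j = ⊥ := by
  obtain ⟨i, rfl⟩ := Int.eq_negSucc_of_lt_zero hj
  rfl

lemma Ez_eq_zero {j : ℤ} (hj : j < 0) {y : ExteriorAlgebra R (Fin n → R)} (hy : y ∈ Ez R n j) :
    y = 0 := by
  rw [Ez_neg hj] at hy
  exact (Submodule.mem_bot R).mp hy

lemma Ez_mul {i j : ℤ} {a b : ExteriorAlgebra R (Fin n → R)} (ha : a ∈ Ez R n i)
    (hb : b ∈ Ez R n j) : a * b ∈ Ez R n (i + j) := by
  rcases lt_or_ge i 0 with hi | hi
  · rw [Ez_eq_zero hi ha, zero_mul]
    exact Submodule.zero_mem _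
  rcases lt_or_ge j 0 with hj | hj
  · rw [Ez_eq_zero hj hb, mul_zero]
    exact Submodule.zero_mem _
  obtain ⟨i, rfl⟩ := Int.eq_ofNat_of_zero_le hi
  obtain ⟨j, rfl⟩ := Int.eq_ofNat_of_zero_le hj
  rw [← Nat.cast_add]
  exact mul_mem_ext ha hb

lemma Ez_involute {i : ℤ} {a : ExteriorAlgebra R (Fin n → R)} (ha : a ∈ Ez R n i) :
    involute a ∈ Ez R n i := by
  rcases lt_or_ge i 0 with hi | hi
  · rw [Ez_eq_zero hi ha, map_zero]
    exact Submodule.zero_mem _
  obtain ⟨i, rfl⟩ := Int.eq_ofNat_of_zero_le hi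
  exact involute_mem ha

lemma Ez_dK (x : Fin n → R) {j : ℤ} {y : ExteriorAlgebra R (Fin n → R)}
    (hy : y ∈ Ez R n (j + 1)) : dK x y ∈ Ez R n j := by
  rcases lt_or_ge (j + 1) 0 with hi | hi
  · rw [Ez_eq_zero hi hy, map_zero]
    exact Submodule.zero_mem _
  rcases lt_or_ge j 0 with hj | hj
  · have : j + 1 = ((0 : ℕ) : ℤ) := by omega
    rw [this] at hy
    rw [dK_zero x hy]
    exact Submodule.zero_mem _
  obtain ⟨j, rfl⟩ := Int.eq_ofNat_of_zero_le hj
  rw [← Nat.cast_succ] at hy
  exact dK_mem x hy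

lemma Ez_algebraMap (r : R) : algebraMap R (ExteriorAlgebra R (Fin n → R)) r ∈ Ez R n 0 :=
  algebraMap_mem_ext r

end Ez

/-- Data for a Golod resolution: representatives of a basis of the positive degree Koszul homology
with coefficients in the ideal generated by the sequence, all of whose products vanish. -/
structure GolodData {R : Type*} [CommRing R] {n : ℕ} (x : Fin n → R) (V : Type*) [Fintype V] where
  dg : V → ℕ
  dg_pos : ∀ v, 1 ≤ dg v
  z : V → ExteriorAlgebra R (Fin n → R)
  z_mem : ∀ v, z v ∈ ⋀[R]^(dg v) (Fin n → R)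
  z_cyc : ∀ v, dK x (z v) = 0
  z_small : ∀ v, z v ∈ mI x • ⋀[R]^(dg v) (Fin n → R)
  z_mul : ∀ v w, z v * z w = 0
  gen : ∀ (i : ℕ), ∀ y ∈ ⋀[R]^(i + 1) (Fin n → R), dK x y = 0 →
    ∃ c : V → R, (∀ v, dg v ≠ i + 1 → c v = 0) ∧
      ∃ g ∈ ⋀[R]^(i + 2) (Fin n → R), y = ∑ v, c v • z v + dK x g
  indep : ∀ (i : ℕ) (c : V → R), (∀ v, dg v ≠ i + 1 → c v = 0) →
    (∃ g ∈ ⋀[R]^(i + 2) (Fin n → R), ∑ v, c v • z v = dK x g) → ∀ v, c v ∈ mI x

namespace GolodData

variable {R : Type*} [CommRing R] {n : ℕ} {x : Fin n → R} {V : Type*} [Fintype V]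
  (G : GolodData x V)

/-- weight of a word -/
def wt (w : List V) : ℤ := (w.map (fun v => (G.dg v : ℤ) + 1)).sum

@[simp] lemma wt_nil : G.wt [] = 0 := rfl

@[simp] lemma wt_cons (v : V) (w : List V) : G.wt (v :: w) = G.dg v + 1 + G.wt w := by
  simp [wt]

/-- The Golod differential. -/
noncomputable def D : (List V → ExteriorAlgebra R (Fin n → R)) →ₗ[R]
    (List V → ExteriorAlgebra R (Fin n → R)) where
  toFun f w := dK x (f w) + ∑ v, involute (f (v :: w)) * G.z v
  map_add' f g := by
    funext w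
    simp only [Pi.add_apply, map_add, add_mul, Finset.sum_add_distrib]
    abel
  map_smul' r f := by
    funext w
    simp only [Pi.smul_apply, map_smul, smul_mul_assoc, RingHom.id_apply, smul_add,
      Finset.smul_sum]

lemma D_apply (f : List V → ExteriorAlgebra R (Fin n → R)) (w : List V) :
    G.D f w = dK x (f w) + ∑ v, involute (f (v :: w)) * G.z v := rfl

/-- The terms of the Golod resolution. -/
noncomputable def FF (N : ℤ) : Submodule R (List V → ExteriorAlgebra R (Fin n → R)) where
  carrier := {f | ∀ w, f w ∈ Ez R n (N - G.wt w)}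
  add_mem' := fun hf hg w => Submodule.add_mem _ (hf w) (hg w)
  zero_mem' := fun w => Submodule.zero_mem _
  smul_mem' := fun r f hf w => Submodule.smul_mem _ r (hf w)

lemma mem_FF {N : ℤ} {f : List V → ExteriorAlgebra R (Fin n → R)} :
    f ∈ G.FF N ↔ ∀ w, f w ∈ Ez R n (N - G.wt w) := Iff.rfl

lemma D_mem {N : ℤ} {f : List V → ExteriorAlgebra R (Fin n → R)} (hf : f ∈ G.FF (N + 1)) :
    G.D f ∈ G.FF N := by
  intro w
  rw [D_apply]
  apply Submodule.add_mem
  · apply Ez_dK
    have := hf w
    rwa [show N + 1 - G.wt w = N - G.wt w + 1 by ring] at this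
  · refine Submodule.sum_mem _ fun v _ => ?_
    have h1 := Ez_mul (Ez_involute (hf (v :: w))) (show G.z v ∈ Ez R n (G.dg v : ℤ) from G.z_mem v)
    rw [wt_cons] at h1
    rwa [show N + 1 - (G.dg v + 1 + G.wt w) + G.dg v = N - G.wt w by ring] at h1

lemma involute_eq {i : ℕ} (y : ExteriorAlgebra R (Fin n → R)) (hy : y ∈ ⋀[R]^i (Fin n → R)) :
    involute y = (-1 : R) ^ i • y := by
  revert y
  revert i
  suffices h : ∀ (i : ℕ) (y : ExteriorAlgebra R (Fin n → R)), y ∈ ⋀[R]^i (Fin n → R) →
      involute (Q := (0 : QuadraticForm R (Fin n → R))) y = (-1 : R) ^ i • y from fun {i} y => h i y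
  apply ext_induction (C := fun i y =>
    involute (Q := (0 : QuadraticForm R (Fin n → R))) y = (-1 : R) ^ i • y)
  · intro r
    rw [AlgHom.commutes, pow_zero, one_smul]
  · intro i a y hy h
    rw [inv_ι_mul, h, pow_succ, mul_smul_comm]
    simp
  · intro i y z hy hz h1 h2
    rw [map_add, h1, h2, smul_add]

lemma inv_z_mul_z (u v : V) : involute (G.z u) * G.z v = 0 := by
  rw [involute_eq _ (G.z_mem u), smul_mul_assoc, G.z_mul, smul_zero]

lemma dK_inv_mul_z (y : ExteriorAlgebra R (Fin n → R)) (v : V) :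
    dK x (involute y * G.z v) = - (involute (dK x y) * G.z v) := by
  rw [dK_mul, G.z_cyc, mul_zero, add_zero, involute_dK, neg_mul, neg_neg]

lemma D_D (f : List V → ExteriorAlgebra R (Fin n → R)) : G.D (G.D f) = 0 := by
  funext w
  rw [D_apply, D_apply, Pi.zero_apply, map_add, dK_dK, zero_add, map_sum,
    ← Finset.sum_add_distrib]
  apply Finset.sum_eq_zero
  intro v _
  rw [dK_inv_mul_z, D_apply, map_add, add_mul, ← add_assoc, neg_add_cancel, zero_add, map_sum,
    Finset.sum_mul]
  apply Finset.sum_eq_zero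
  intro u _
  rw [map_mul, mul_assoc, inv_z_mul_z, mul_zero]

lemma gen' {j : ℤ} (hj : 0 < j) {y : ExteriorAlgebra R (Fin n → R)} (hy : y ∈ Ez R n j)
    (hd : dK x y = 0) : ∃ c : V → R, (∀ v, (G.dg v : ℤ) ≠ j → c v = 0) ∧
      ∃ g ∈ Ez R n (j + 1), y = ∑ v, c v • G.z v + dK x g := by
  obtain ⟨i, rfl⟩ : ∃ i : ℕ, j = ((i + 1 : ℕ) : ℤ) := ⟨(j - 1).toNat, by omega⟩
  obtain ⟨c, hc, g, hg, e⟩ := G.gen i y hy hd
  refine ⟨c, fun v hv => hc v (fun h => hv (by rw [h])), g, ?_, e⟩
  exact hg

lemma sum_z_mul_z (c : V → R) (v : V) : involute (∑ u, c u • G.z u) * G.z v = 0 := by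
  rw [map_sum, Finset.sum_mul]
  apply Finset.sum_eq_zero
  intro u _
  rw [map_smul, smul_mul_assoc, inv_z_mul_z, smul_zero]

lemma exists_dK_eq {r : R} (hr : r ∈ mI x) :
    ∃ g ∈ Ez R n 1, dK x g = algebraMap R _ r := by
  rw [mI, ← Set.image_univ, ← Finset.coe_univ] at hr
  obtain ⟨c, hc⟩ := (Submodule.mem_span_image_finset_iff_exists_fun R).mp hr
  refine ⟨∑ l, c l • ee R l, ?_, ?_⟩
  · exact Submodule.sum_mem _ fun l _ => Submodule.smul_mem _ _ (ι_mem _)
  · rw [map_sum]
    simp only [map_smul, dK_ee]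
    rw [← hc, map_sum]
    refine Finset.sum_congr rfl fun l _ => ?_
    rw [smul_eq_mul, map_mul, Algebra.smul_def]

/-- The key local statement. -/
lemma local_decomp {N : ℕ} {L : ℕ} {f : List V → ExteriorAlgebra R (Fin n → R)}
    (hf : f ∈ G.FF (N + 1)) (hD : G.D f = 0) (hL : ∀ w : List V, L + 1 ≤ w.length → f w = 0)
    (w : List V) (hw : w.length = L) :
    ∃ c : V → R, (∀ v, (G.dg v : ℤ) ≠ N + 1 - G.wt w → c v = 0) ∧
      ∃ g ∈ Ez R n (N + 2 - G.wt w), f w = ∑ v, c v • G.z v + dK x g := by
  have hcyc : ∀ w : List V, w.length = L → dK x (f w) = 0 := by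
    intro w hw
    have h1 := congrFun hD w
    rw [D_apply, Pi.zero_apply] at h1
    have h2 : ∑ v, involute (f (v :: w)) * G.z v = 0 := by
      apply Finset.sum_eq_zero
      intro v _
      rw [hL (v :: w) (by simp [hw]), map_zero, zero_mul]
    rwa [h2, add_zero] at h1
  rcases lt_trichotomy (N + 1 - G.wt w) 0 with hj | hj | hj
  · refine ⟨0, fun _ _ => rfl, 0, Submodule.zero_mem _, ?_⟩
    have := Ez_eq_zero hj (hf w)
    rw [this]
    simp
  · -- the degree zero case
    rcases w with _ | ⟨v₀, u⟩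
    · rw [wt_nil] at hj
      omega
    have hwu := G.wt_cons v₀ u
    have hu : N + 1 - G.wt u = G.dg v₀ + 1 := by omega
    have h1 := congrFun hD u
    rw [D_apply, Pi.zero_apply] at h1
    have hlen : ∀ v : V, (v :: u).length = L := fun v => by
      rw [← hw]; rfl
    -- the coefficients
    have hr : ∀ v, ∃ r : R, ((G.dg v ≠ G.dg v₀ → r = 0) ∧
        (G.dg v = G.dg v₀ → f (v :: u) = algebraMap R _ r)) ∧
        ∃ g ∈ Ez R n (G.dg v₀ + 1), involute (f (v :: u)) * G.z v = r • G.z v + dK x g := by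
      intro v
      have hm := hf (v :: u)
      rw [wt_cons] at hm
      rcases lt_trichotomy (G.dg v) (G.dg v₀) with h | h | h
      · obtain ⟨c, hc, g, hg, e⟩ := G.gen' (j := N + 1 - (G.dg v + 1 + G.wt u)) (by omega) hm
          (hcyc _ (hlen v))
        refine ⟨0, ⟨fun _ => rfl, fun h' => by omega⟩, -(involute g * G.z v), ?_, ?_⟩
        · apply Submodule.neg_mem
          have := Ez_mul (Ez_involute hg) (show G.z v ∈ Ez R n (G.dg v : ℤ) from G.z_mem v)
          rwa [show (N : ℤ) + 1 - (G.dg v + 1 + G.wt u) + 1 + G.dg v = G.dg v₀ + 1 by omega] at this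
        · rw [e, map_add, add_mul, sum_z_mul_z, zero_smul, zero_add, map_neg, dK_inv_mul_z, neg_neg,
            zero_add]
      · rw [show (N : ℤ) + 1 - (G.dg v + 1 + G.wt u) = 0 by omega] at hm
        obtain ⟨r, hr⟩ := mem_ext_zero hm
        refine ⟨r, ⟨fun h' => absurd h h', fun _ => hr⟩, 0, Submodule.zero_mem _, ?_⟩
        rw [hr, AlgHom.commutes, ← Algebra.smul_def, map_zero, add_zero]
      · have := Ez_eq_zero (show (N : ℤ) + 1 - (G.dg v + 1 + G.wt u) < 0 by omega) hm
        refine ⟨0, ⟨fun _ => rfl, fun h' => by omega⟩, 0, Submodule.zero_mem _, ?_⟩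
        rw [this]
        simp
    choose r hr1 g hg hrg using hr
    have h2 : ∑ v, r v • G.z v = dK x (-(f u + ∑ v, g v)) := by
      rw [map_neg, map_add, map_sum, eq_neg_iff_add_eq_zero, ← h1]
      simp only [hrg, Finset.sum_add_distrib]
      abel
    obtain ⟨i, hi⟩ : ∃ i : ℕ, G.dg v₀ = i + 1 := ⟨G.dg v₀ - 1, by
      have := G.dg_pos v₀
      omega⟩
    have h3 : -(f u + ∑ v, g v) ∈ ⋀[R]^(i + 2) (Fin n → R) := by
      have h4 : -(f u + ∑ v, g v) ∈ Ez R n ((i + 2 : ℕ) : ℤ) := by
        have e : ((i + 2 : ℕ) : ℤ) = G.dg v₀ + 1 := by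
          rw [hi]; push_cast; ring
        rw [e]
        apply Submodule.neg_mem
        apply Submodule.add_mem
        · have := hf u
          rwa [hu] at this
        · exact Submodule.sum_mem _ fun v _ => hg v
      exact h4
    have h5 := G.indep i r (fun v hv => (hr1 v).1 (by rw [hi]; exact hv)) ⟨_, h3, h2⟩ v₀
    obtain ⟨g', hg', e'⟩ := exists_dK_eq h5
    refine ⟨0, fun _ _ => rfl, g', ?_, ?_⟩
    · rwa [show (N : ℤ) + 2 - G.wt (v₀ :: u) = 1 by omega]
    · rw [(hr1 v₀).2 rfl, e']
      simp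
  · obtain ⟨c, hc, g, hg, e⟩ := G.gen' hj (hf w) (hcyc w hw)
    refine ⟨c, hc, g, ?_, e⟩
    rwa [show (N : ℤ) + 1 - G.wt w + 1 = N + 2 - G.wt w by ring] at hg

theorem exact_aux (N : ℕ) (L : ℕ) : ∀ f ∈ G.FF (N + 1), G.D f = 0 →
    (∀ w : List V, L ≤ w.length → f w = 0) → ∃ g ∈ G.FF (N + 2), G.D g = f := by
  induction L with
  | zero =>
    intro f _ _ hL
    refine ⟨0, Submodule.zero_mem _, ?_⟩
    rw [map_zero]
    funext w
    rw [hL w (Nat.zero_le _)]
    rfl
  | succ L ih =>
    intro f hf hD hL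
    have key := fun (w : List V) (hw : w.length = L) => G.local_decomp hf hD hL w hw
    choose! c hc gg hgg hfw using key
    let g : List V → ExteriorAlgebra R (Fin n → R) := fun w =>
      if w.length = L then gg w else
        match w with
        | [] => 0
        | v :: u => if u.length = L then algebraMap R _ (c u v) else 0
    have g1 : ∀ w : List V, w.length = L → g w = gg w := fun w hw => by
      simp only [g, if_pos hw]
    have g2 : ∀ (v : V) (u : List V), u.length = L → g (v :: u) = algebraMap R _ (c u v) := by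
      intro v u hu
      have : ¬ (v :: u).length = L := by
        rw [List.length_cons, hu]
        omega
      simp only [g, if_neg this, if_pos hu]
    have g3 : ∀ w : List V, L + 2 ≤ w.length → g w = 0 := by
      intro w hw
      have : ¬ w.length = L := by omega
      rcases w with _ | ⟨v, u⟩
      · simp at hw
      · have h' : ¬ u.length = L := by
          rw [List.length_cons] at hw
          omega
        simp only [g, if_neg this, if_neg h']
    have g4 : ∀ w : List V, w.length < L → g w = 0 := by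
      intro w hw
      have : ¬ w.length = L := by omega
      rcases w with _ | ⟨v, u⟩
      · simp only [g, if_neg this]
      · have h' : ¬ u.length = L := by
          rw [List.length_cons] at hw
          omega
        simp only [g, if_neg this, if_neg h']
    have hg : g ∈ G.FF (N + 2) := by
      intro w
      rcases lt_trichotomy w.length L with h | h | h
      · rw [g4 w h]
        exact Submodule.zero_mem _
      · rw [g1 w h]
        exact hgg w h
      · rcases w with _ | ⟨v, u⟩
        · simp at h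
        · rcases Nat.eq_or_lt_of_le (Nat.lt_succ_iff.mp (by
            rw [List.length_cons] at h; omega : L < u.length + 1)) with h' | h'
          · rw [g2 v u h'.symm]
            by_cases hv : (G.dg v : ℤ) = N + 1 - G.wt u
            · rw [wt_cons, show (N : ℤ) + 2 - (G.dg v + 1 + G.wt u) = 0 by omega]
              exact Ez_algebraMap _
            · rw [hc u h'.symm v hv, map_zero]
              exact Submodule.zero_mem _
          · rw [g3 (v :: u) (by rw [List.length_cons]; omega)]
            exact Submodule.zero_mem _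
    have hDg : G.D g ∈ G.FF (N + 1) := by
      apply G.D_mem
      rwa [show (N : ℤ) + 1 + 1 = N + 2 by ring]
    obtain ⟨g', hg', e'⟩ := ih (f - G.D g) (Submodule.sub_mem _ hf hDg)
      (by rw [map_sub, hD, D_D, sub_zero]) (by
        intro w hw
        rw [Pi.sub_apply, D_apply]
        rcases Nat.eq_or_lt_of_le hw with h | h
        · rw [g1 w h.symm]
          have : ∑ v, involute (g (v :: w)) * G.z v = ∑ v, c w v • G.z v := by
            refine Finset.sum_congr rfl fun v _ => ?_
            rw [g2 v w h.symm, AlgHom.commutes, ← Algebra.smul_def]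
          rw [this, hfw w h.symm]
          abel
        · have h1 : f w = 0 := hL w h
          have h2 : dK x (g w) = 0 := by
            rcases w with _ | ⟨v, u⟩
            · simp at h
            · rcases Nat.eq_or_lt_of_le (Nat.lt_succ_iff.mp (by
                rw [List.length_cons] at h; omega : L < u.length + 1)) with h' | h'
              · rw [g2 v u h'.symm]
                exact dK_algebraMap x _
              · rw [g3 (v :: u) (by rw [List.length_cons]; omega), map_zero]
          have h3 : ∑ v, involute (g (v :: w)) * G.z v = 0 := by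
            apply Finset.sum_eq_zero
            intro v _
            rw [g3 (v :: w) (by rw [List.length_cons]; omega), map_zero, zero_mul]
          rw [h1, h2, h3]
          simp)
    refine ⟨g + g', Submodule.add_mem _ hg hg', ?_⟩
    rw [map_add, e']
    abel

lemma wt_ge (w : List V) : (w.length : ℤ) ≤ G.wt w := by
  induction w with
  | nil => simp
  | cons v w ih =>
    rw [wt_cons, List.length_cons]
    push_cast
    omega

/-- Exactness of the Golod resolution in positive degrees. -/
theorem exact_succ (N : ℕ) (f : List V → ExteriorAlgebra R (Fin n → R)) (hf : f ∈ G.FF (N + 1))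
    (hD : G.D f = 0) : ∃ g ∈ G.FF (N + 2), G.D g = f := by
  apply G.exact_aux N (N + 2) f hf hD
  intro w hw
  apply Ez_eq_zero _ (hf w)
  have := G.wt_ge w
  omega

end GolodData

end Pool.Agent.Helper55
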