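import Mathlib

/-!
# Tor from a minimal projective resolution
-/

universe u

namespace Pool.Agent.Helper55

open CategoryTheory Limits MonoidalCategory

variable {R : Type u} [CommRing R]

/-- A projective resolution given in terms of elements. -/
structure ElemRes (M : ModuleCat.{u} R) where
  X : ℕ → ModuleCat.{u} R
  d : ∀ N, X (N + 1) ⟶ X N
  ε : X 0 ⟶ M
  proj : ∀ N, Projective (X N)
  d_d : ∀ N, d (N + 1) ≫ d N = 0
  d_ε : d 0 ≫ ε = 0
  surj : Function.Surjective ε
  exact0 : ∀ y : X 0, ε y = 0 → ∃ z, d 0 z = y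
  exactS : ∀ (N : ℕ) (y : X (N + 1)), d N y = 0 → ∃ z, d (N + 1) z = y

namespace ElemRes

variable {M : ModuleCat.{u} R} (P : ElemRes M)

/-- the complex -/
noncomputable def cx : ChainComplex (ModuleCat.{u} R) ℕ := ChainComplex.of P.X P.d P.d_d

lemma cx_d (N : ℕ) : P.cx.d (N + 1) N = P.d N := ChainComplex.of_d _ _ _

/-- the augmentation -/
noncomputable def aug : P.cx ⟶ (ChainComplex.single₀ (ModuleCat.{u} R)).obj M :=
  (ChainComplex.toSingle₀Equiv P.cx M).symm ⟨P.ε, by
    rw [P.cx_d 0]
    exact P.d_ε⟩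

set_option backward.defeqAttrib.useBackward true in
set_option backward.isDefEq.respectTransparency false in
lemma aug_quasiIso : QuasiIso P.aug where
  quasiIsoAt m := by
    cases m with
    | zero =>
      rw [ChainComplex.quasiIsoAt₀_iff, ShortComplex.quasiIso_iff_of_zeros' _ rfl rfl rfl]
      constructor
      · rw [ShortComplex.moduleCat_exact_iff]
        intro y hy
        obtain ⟨z, hz⟩ := P.exact0 y hy
        refine ⟨z, ?_⟩
        have := P.cx_d 0
        exact (congrArg (fun (f : P.X 1 ⟶ P.X 0) => f z) this).trans hz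
      · rw [ModuleCat.epi_iff_surjective]
        exact P.surj
    | succ m =>
      rw [quasiIsoAt_iff_exactAt' (hL := ChainComplex.exactAt_succ_single_obj ..),
          HomologicalComplex.exactAt_iff' _ (m + 2) (m + 1) m (by simp) (by simp)]
      rw [ShortComplex.moduleCat_exact_iff]
      intro y hy
      have h1 := P.cx_d m
      have h2 := P.cx_d (m + 1)
      obtain ⟨z, hz⟩ := P.exactS m y
        ((congrArg (fun (f : P.X (m + 1) ⟶ P.X m) => f y) h1).symm.trans hy)
      exact ⟨z, (congrArg (fun (f : P.X (m + 2) ⟶ P.X (m + 1)) => f z) h2).trans hz⟩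

/-- the associated projective resolution -/
noncomputable def res : ProjectiveResolution M where
  complex := P.cx
  projective N := P.proj N
  π := P.aug
  quasiIso := P.aug_quasiIso

end ElemRes

lemma whisker_zero {J : Ideal R} {L Y Z : ModuleCat.{u} R} (hL : ∀ r ∈ J, ∀ a : L, r • a = 0)
    (f : Y ⟶ Z) (hf : ∀ y, f y ∈ J • (⊤ : Submodule R Z)) : L ◁ f = 0 := by
  apply ModuleCat.MonoidalCategory.tensor_ext
  intro a y
  have key : ∀ z ∈ J • (⊤ : Submodule R Z), (TensorProduct.tmul R a z) = 0 := by
    intro z hz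
    refine Submodule.smul_induction_on hz ?_ ?_
    · intro r hr w _
      rw [TensorProduct.tmul_smul, TensorProduct.smul_tmul', hL r hr, TensorProduct.zero_tmul]
    · intro u v hu hv
      rw [TensorProduct.tmul_add, hu, hv, add_zero]
  exact key _ (hf y)

namespace ElemRes

variable {M : ModuleCat.{u} R} (P : ElemRes M)

/-- Tor from a minimal resolution. -/
noncomputable def torIso {J : Ideal R} {L : ModuleCat.{u} R} (hL : ∀ r ∈ J, ∀ a : L, r • a = 0)
    (hd : ∀ N y, P.d N y ∈ J • (⊤ : Submodule R (P.X N))) (N : ℕ) :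
    ((Tor (ModuleCat.{u} R) N).obj L).obj M ≅ L ⊗ P.X N := by
  let F := (tensoringLeft (ModuleCat.{u} R)).obj L
  let C := (F.mapHomologicalComplex (ComplexShape.down ℕ)).obj P.res.complex
  have hC : ∀ i j, C.d i j = 0 := by
    intro i j
    by_cases h : i = j + 1
    · subst h
      change L ◁ (P.cx.d (j + 1) j) = 0
      rw [P.cx_d]
      exact whisker_zero hL _ (hd j)
    · apply C.shape
      intro h'
      exact h h'.symm
  exact (P.res.isoLeftDerivedObj F N) ≪≫
    (C.isoHomologyπ _ N rfl (hC _ _)).symm ≪≫ C.iCyclesIso N _ rfl (hC _ _)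

end ElemRes

end Pool.Agent.Helper55
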