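import Pool.Agent.Helper55.GolodRank
import Pool.Agent.Helper55.MinRes

/-!
# Tor of the residue field over a ring with Golod data
-/

universe u

namespace Pool.Agent.Helper55

open CategoryTheory Limits MonoidalCategory

open CliffordAlgebra (contractLeft involute)

namespace GolodData

variable {R : Type u} [CommRing R] {n : ℕ} {x : Fin n → R} {V : Type} [Fintype V]
  (G : GolodData x V)

/-- the differential on the terms -/
noncomputable def dMap (N : ℕ) : G.FF ((N + 1 : ℕ) : ℤ) →ₗ[R] G.FF (N : ℤ) :=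
  G.D.restrict (p := G.FF ((N + 1 : ℕ) : ℤ)) (q := G.FF (N : ℤ)) (fun f hf => by
    apply G.D_mem
    rwa [Nat.cast_succ] at hf)

lemma dMap_coe (N : ℕ) (f : G.FF ((N + 1 : ℕ) : ℤ)) :
    (G.dMap N f : List V → ExteriorAlgebra R (Fin n → R)) = G.D f.1 := rfl

/-- the augmentation -/
noncomputable def augMap : G.FF ((0 : ℕ) : ℤ) →ₗ[R] (R ⧸ mI x) where
  toFun f := Ideal.Quotient.mk (mI x) (ExteriorAlgebra.algebraMapInv (f.1 []))
  map_add' f g := by
    change Ideal.Quotient.mk (mI x) (ExteriorAlgebra.algebraMapInv (f.1 [] + g.1 [])) = _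
    rw [map_add, map_add]
  map_smul' r f := by
    change Ideal.Quotient.mk (mI x) (ExteriorAlgebra.algebraMapInv (r • (f.1 []))) = _
    rw [map_smul, smul_eq_mul, map_mul]
    rfl

lemma augMap_apply (f : G.FF ((0 : ℕ) : ℤ)) :
    G.augMap f = Ideal.Quotient.mk (mI x) (ExteriorAlgebra.algebraMapInv (f.1 [])) := rfl

lemma algebraMapInv_algebraMap (r : R) :
    ExteriorAlgebra.algebraMapInv (algebraMap R (ExteriorAlgebra R (Fin n → R)) r) = r :=
  ExteriorAlgebra.algebraMap_leftInverse _ r

lemma wt_pos_of_ne_nil {w : List V} (hw : w ≠ []) : 2 ≤ G.wt w := by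
  rcases w with _ | ⟨v, u⟩
  · exact absurd rfl hw
  · rw [wt_cons]
    have h1 := G.wt_ge u
    have h2 := G.dg_pos v
    omega

lemma dK_deg_one {y : ExteriorAlgebra R (Fin n → R)} (hy : y ∈ ⋀[R]^1 (Fin n → R)) :
    ∃ r ∈ mI x, dK x y = algebraMap R _ r := by
  rw [ExteriorAlgebra.exteriorPower, pow_one] at hy
  obtain ⟨a, rfl⟩ := hy
  refine ⟨_, ?_, dK_ι x a⟩
  rw [Fintype.linearCombination_apply]
  exact Submodule.sum_mem _ fun l _ => Ideal.mul_mem_left _ _ (x_mem l)

lemma D_nil_of_FF_one {f : List V → ExteriorAlgebra R (Fin n → R)} (hf : f ∈ G.FF 1) :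
    ∃ r ∈ mI x, G.D f [] = algebraMap R _ r := by
  rw [D_apply]
  have h1 : ∑ v, involute (f (v :: [])) * G.z v = 0 := by
    apply Finset.sum_eq_zero
    intro v _
    have := G.wt_pos_of_ne_nil (w := [v]) (by simp)
    rw [Ez_eq_zero (by omega) (hf [v]), map_zero, zero_mul]
  rw [h1, add_zero]
  exact dK_deg_one (hf [])

/-- the Golod resolution -/
noncomputable def elemRes : ElemRes (ModuleCat.of R (R ⧸ mI x)) where
  X N := ModuleCat.of R (G.FF (N : ℤ))
  d N := ModuleCat.ofHom (G.dMap N)
  ε := ModuleCat.ofHom G.augMap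
  proj N := by
    have : Module.Projective R (G.FF (N : ℤ)) := inferInstance
    exact (IsProjective.iff_projective (R := R) (G.FF (N : ℤ))).mp this
  d_d N := ModuleCat.hom_ext (LinearMap.ext fun f => Subtype.ext (G.D_D f.1))
  d_ε := by
    ext f
    change Ideal.Quotient.mk (mI x) (ExteriorAlgebra.algebraMapInv (G.D f.1 [])) = 0
    obtain ⟨r, hr, e⟩ := G.D_nil_of_FF_one (f := f.1) (by
      have := f.2
      exact this)
    rw [e, algebraMapInv_algebraMap, Ideal.Quotient.eq_zero_iff_mem]
    exact hr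
  surj y := by
    obtain ⟨r, rfl⟩ := Ideal.Quotient.mk_surjective y
    classical
    refine ⟨⟨Pi.single [] (algebraMap R _ r), ?_⟩, ?_⟩
    · intro w
      by_cases hw : w = []
      · subst hw
        rw [Pi.single_eq_same]
        exact algebraMap_mem_ext r
      · rw [Pi.single_eq_of_ne hw]
        exact Submodule.zero_mem _
    · change Ideal.Quotient.mk (mI x) (ExteriorAlgebra.algebraMapInv
        ((Pi.single [] (algebraMap R _ r) : List V → ExteriorAlgebra R (Fin n → R)) [])) = _
      rw [Pi.single_eq_same, algebraMapInv_algebraMap]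
  exact0 f hf := by
    change Ideal.Quotient.mk (mI x) (ExteriorAlgebra.algebraMapInv (f.1 [])) = 0 at hf
    rw [Ideal.Quotient.eq_zero_iff_mem] at hf
    have h0 := f.2 []
    rw [wt_nil, sub_zero] at h0
    obtain ⟨r, hr⟩ := mem_ext_zero h0
    rw [hr, algebraMapInv_algebraMap] at hf
    obtain ⟨g, hg, e⟩ := exists_dK_eq hf
    classical
    refine ⟨⟨Pi.single [] g, ?_⟩, ?_⟩
    · intro w
      by_cases hw : w = []
      · subst hw
        rw [Pi.single_eq_same, wt_nil, sub_zero]
        exact hg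
      · rw [Pi.single_eq_of_ne hw]
        exact Submodule.zero_mem _
    · apply Subtype.ext
      change G.D (Pi.single [] g) = f.1
      funext w
      rw [D_apply]
      have h1 : ∑ v, involute ((Pi.single [] g : List V → ExteriorAlgebra R (Fin n → R))
          (v :: w)) * G.z v = 0 := by
        apply Finset.sum_eq_zero
        intro v _
        rw [Pi.single_eq_of_ne (by simp), map_zero, zero_mul]
      rw [h1, add_zero]
      by_cases hw : w = []
      · subst hw
        rw [Pi.single_eq_same, e, hr]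
      · rw [Pi.single_eq_of_ne hw, map_zero]
        symm
        apply Ez_eq_zero _ (f.2 w)
        have := G.wt_pos_of_ne_nil hw
        push_cast
        omega
  exactS N f hf := by
    have h1 : G.D f.1 = 0 := congrArg Subtype.val hf
    obtain ⟨g, hg, e⟩ := G.exact_succ N f.1 f.2 h1
    refine ⟨⟨g, ?_⟩, Subtype.ext e⟩
    have e2 : ((N + 1 + 1 : ℕ) : ℤ) = N + 2 := by push_cast; ring
    rw [e2]
    exact hg

lemma minimal (N : ℕ) (y : G.elemRes.X (N + 1)) :
    G.elemRes.d N y ∈ mI x • (⊤ : Submodule R (G.elemRes.X N)) := by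
  have h1 : G.D y.1 ∈ mI x • G.FF N := G.D_mem_smul y.2
  have h2 : (mI x • (⊤ : Submodule R (G.FF (N : ℤ)))).map (G.FF (N : ℤ)).subtype =
      mI x • G.FF N := by
    rw [Submodule.map_smul'', Submodule.map_top, Submodule.range_subtype]
  rw [← h2] at h1
  obtain ⟨z, hz, e⟩ := h1
  have : z = G.elemRes.d N y := Subtype.ext e
  rw [← this]
  exact hz

end GolodData

end Pool.Agent.Helper55
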