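import Mathlib

/-!
# The Koszul complex as an exterior algebra with a contraction
-/

namespace Pool.Agent.Helper55

open CliffordAlgebra (contractLeft involute)

section General

variable {R : Type*} [CommRing R] {n : ℕ}

/-- The Koszul differential on the exterior algebra of `R^n` attached to a sequence `x` of `n`
elements of `R`: contraction against the linear form `e_i ↦ x_i`. -/
noncomputable def dK (x : Fin n → R) :
    ExteriorAlgebra R (Fin n → R) →ₗ[R] ExteriorAlgebra R (Fin n → R) :=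
  contractLeft (Q := (0 : QuadraticForm R (Fin n → R))) (Fintype.linearCombination R x)

variable (x : Fin n → R)

/-- basis vectors -/
noncomputable abbrev ee (R : Type*) [CommRing R] {n : ℕ} (i : Fin n) :
    ExteriorAlgebra R (Fin n → R) :=
  ExteriorAlgebra.ι R (Pi.single i 1)

lemma dK_dK (y : ExteriorAlgebra R (Fin n → R)) : dK x (dK x y) = 0 :=
  CliffordAlgebra.contractLeft_contractLeft _ _

lemma dK_ι_mul (a : Fin n → R) (y : ExteriorAlgebra R (Fin n → R)) :
    dK x (ExteriorAlgebra.ι R a * y) =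
      (Fintype.linearCombination R x a) • y - ExteriorAlgebra.ι R a * dK x y :=
  CliffordAlgebra.contractLeft_ι_mul _ _ _

lemma dK_algebraMap (r : R) : dK x (algebraMap R _ r) = 0 :=
  CliffordAlgebra.contractLeft_algebraMap _ _ _

lemma dK_one : dK x 1 = 0 :=
  CliffordAlgebra.contractLeft_one _ _

lemma dK_ι (a : Fin n → R) :
    dK x (ExteriorAlgebra.ι R a) = algebraMap R _ (Fintype.linearCombination R x a) :=
  CliffordAlgebra.contractLeft_ι _ _ _

lemma dK_ee (i : Fin n) : dK x (ee R i) = algebraMap R _ (x i) := by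
  rw [dK_ι, Fintype.linearCombination_apply_single, one_smul]

lemma inv_ι_mul (a : Fin n → R) (y : ExteriorAlgebra R (Fin n → R)) :
    involute (ExteriorAlgebra.ι R a * y) = - (ExteriorAlgebra.ι R a * involute y) := by
  rw [map_mul]
  have : involute (ExteriorAlgebra.ι R a) = - ExteriorAlgebra.ι R a :=
    CliffordAlgebra.involute_ι _
  rw [this, neg_mul]

/-- The Leibniz rule. -/
lemma dK_mul (a b : ExteriorAlgebra R (Fin n → R)) :
    dK x (a * b) = dK x a * b + involute a * dK x b := by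
  induction a using CliffordAlgebra.left_induction with
  | algebraMap r =>
    rw [AlgHom.commutes, ← Algebra.smul_def, map_smul]
    have : dK x (algebraMap R _ r) = 0 := dK_algebraMap x r
    rw [Algebra.smul_def]
    erw [this]
    rw [zero_mul, zero_add]
  | add a a' h h' =>
    rw [add_mul, map_add, h, h', map_add, map_add, add_mul, add_mul]
    abel
  | ι_mul a m h =>
    have e1 := dK_ι_mul x m (a * b)
    have e2 := dK_ι_mul x m a
    have e3 := inv_ι_mul m a
    change dK x (ExteriorAlgebra.ι R m * a * b) = dK x (ExteriorAlgebra.ι R m * a) * b +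
      involute (ExteriorAlgebra.ι R m * a) * dK x b
    rw [mul_assoc, e1, e2, e3, h]
    rw [sub_mul, mul_add, smul_mul_assoc, neg_mul, mul_assoc, mul_assoc]
    abel

lemma involute_dK (y : ExteriorAlgebra R (Fin n → R)) :
    involute (dK x y) = - dK x (involute y) := by
  induction y using CliffordAlgebra.left_induction with
  | algebraMap r =>
    have : dK x (algebraMap R _ r) = 0 := dK_algebraMap x r
    rw [AlgHom.commutes]
    erw [this]
    simp
  | add a a' h h' =>
    rw [map_add, map_add, h, h', map_add, map_add, neg_add]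
  | ι_mul a m h =>
    change involute (dK x (ExteriorAlgebra.ι R m * a)) =
      - dK x (involute (ExteriorAlgebra.ι R m * a))
    rw [inv_ι_mul, dK_ι_mul, map_sub, inv_ι_mul, h, map_neg, dK_ι_mul, map_smul, mul_neg]
    abel

lemma pow_succ_ext (i : ℕ) : (⋀[R]^(i + 1) (Fin n → R)) =
    LinearMap.range (ExteriorAlgebra.ι R : (Fin n → R) →ₗ[R] _) * ⋀[R]^i (Fin n → R) := by
  rw [ExteriorAlgebra.exteriorPower, ExteriorAlgebra.exteriorPower, pow_succ']

lemma ι_mem (a : Fin n → R) : ExteriorAlgebra.ι R a ∈ ⋀[R]^1 (Fin n → R) := by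
  rw [ExteriorAlgebra.exteriorPower, pow_one]
  exact LinearMap.mem_range_self _ _

lemma mul_mem_ext {i j : ℕ} {a b : ExteriorAlgebra R (Fin n → R)}
    (ha : a ∈ ⋀[R]^i (Fin n → R)) (hb : b ∈ ⋀[R]^j (Fin n → R)) :
    a * b ∈ ⋀[R]^(i + j) (Fin n → R) := by
  rw [ExteriorAlgebra.exteriorPower] at *
  rw [pow_add]
  exact Submodule.mul_mem_mul ha hb

lemma ι_mul_mem {i : ℕ} (a : Fin n → R) {b : ExteriorAlgebra R (Fin n → R)}
    (hb : b ∈ ⋀[R]^i (Fin n → R)) :
    ExteriorAlgebra.ι R a * b ∈ ⋀[R]^(i + 1) (Fin n → R) := by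
  rw [add_comm]
  exact mul_mem_ext (ι_mem a) hb

lemma mem_ext_zero {y : ExteriorAlgebra R (Fin n → R)} (hy : y ∈ ⋀[R]^0 (Fin n → R)) :
    ∃ r : R, y = algebraMap R _ r := by
  rw [ExteriorAlgebra.exteriorPower, pow_zero] at hy
  obtain ⟨r, hr⟩ := Submodule.mem_one.mp hy
  exact ⟨r, hr.symm⟩

lemma algebraMap_mem_ext (r : R) :
    algebraMap R (ExteriorAlgebra R (Fin n → R)) r ∈ ⋀[R]^0 (Fin n → R) := by
  rw [ExteriorAlgebra.exteriorPower, pow_zero]
  exact Submodule.mem_one.mpr ⟨r, rfl⟩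

/-- induction principle on homogeneous elements -/
lemma ext_induction {C : ℕ → ExteriorAlgebra R (Fin n → R) → Prop}
    (h0 : ∀ r, C 0 (algebraMap R _ r))
    (hmul : ∀ i a y, y ∈ ⋀[R]^i (Fin n → R) → C i y → C (i + 1) (ExteriorAlgebra.ι R a * y))
    (hadd : ∀ i y z, y ∈ ⋀[R]^i (Fin n → R) → z ∈ ⋀[R]^i (Fin n → R) → C i y → C i z →
      C i (y + z))
    (i : ℕ) (y : ExteriorAlgebra R (Fin n → R)) (hy : y ∈ ⋀[R]^i (Fin n → R)) : C i y := by
  induction i generalizing y with
  | zero =>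
    obtain ⟨r, rfl⟩ := mem_ext_zero hy
    exact h0 r
  | succ i ih =>
    rw [pow_succ_ext] at hy
    have key : y ∈ ⋀[R]^(i + 1) (Fin n → R) ∧ C (i + 1) y := by
      refine Submodule.mul_induction_on hy ?_ ?_
      · rintro m ⟨a, rfl⟩ z hz
        exact ⟨ι_mul_mem a hz, hmul i a z hz (ih z hz)⟩
      · rintro z w ⟨hz1, hz2⟩ ⟨hw1, hw2⟩
        exact ⟨Submodule.add_mem _ hz1 hw1, hadd _ z w hz1 hw1 hz2 hw2⟩
    exact key.2

lemma dK_mem {i : ℕ} {y : ExteriorAlgebra R (Fin n → R)}
    (hy : y ∈ ⋀[R]^(i + 1) (Fin n → R)) : dK x y ∈ ⋀[R]^i (Fin n → R) := by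
  have key : ∀ (i : ℕ) (y : ExteriorAlgebra R (Fin n → R)), y ∈ ⋀[R]^i (Fin n → R) →
      (i = 0 → dK x y = 0) ∧ ∀ j, i = j + 1 → dK x y ∈ ⋀[R]^j (Fin n → R) := by
    apply ext_induction
    · intro r
      refine ⟨fun _ => dK_algebraMap x r, fun j hj => by omega⟩
    · rintro i a y hy ⟨h1, h2⟩
      refine ⟨fun h => by omega, fun j hj => ?_⟩
      obtain rfl : i = j := by omega
      rw [dK_ι_mul]
      apply Submodule.sub_mem _ (Submodule.smul_mem _ _ hy)
      rcases Nat.eq_zero_or_pos i with h | h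
      · rw [h1 h, mul_zero]
        exact Submodule.zero_mem _
      · obtain ⟨l, rfl⟩ : ∃ l, i = l + 1 := ⟨i - 1, by omega⟩
        exact ι_mul_mem a (h2 l rfl)
    · rintro i y z hy hz ⟨h1, h2⟩ ⟨h3, h4⟩
      refine ⟨fun h => by rw [map_add, h1 h, h3 h, add_zero], fun j hj => ?_⟩
      rw [map_add]
      exact Submodule.add_mem _ (h2 j hj) (h4 j hj)
  exact (key _ y hy).2 i rfl

lemma dK_zero {y : ExteriorAlgebra R (Fin n → R)}
    (hy : y ∈ ⋀[R]^0 (Fin n → R)) : dK x y = 0 := by
  obtain ⟨r, rfl⟩ := mem_ext_zero hy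
  exact dK_algebraMap x r

lemma involute_mem {i : ℕ} {y : ExteriorAlgebra R (Fin n → R)}
    (hy : y ∈ ⋀[R]^i (Fin n → R)) : involute y ∈ ⋀[R]^i (Fin n → R) := by
  revert hy
  revert y
  suffices h : ∀ y ∈ ⋀[R]^i (Fin n → R), involute y ∈ ⋀[R]^i (Fin n → R) by
    intro y hy
    exact h y hy
  apply ext_induction
    (C := fun i y => involute (Q := (0 : QuadraticForm R (Fin n → R))) y ∈ ⋀[R]^i (Fin n → R))
  · intro r
    rw [AlgHom.commutes]
    exact algebraMap_mem_ext r
  · intro i a y hy h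
    rw [inv_ι_mul]
    exact Submodule.neg_mem _ (ι_mul_mem a h)
  · intro i y z hy hz h1 h2
    rw [map_add]
    exact Submodule.add_mem _ h1 h2

/-- The ideal generated by the sequence kills the Koszul homology. -/
lemma smul_eq_dK (i : Fin n) {y : ExteriorAlgebra R (Fin n → R)} (hy : dK x y = 0) :
    x i • y = dK x (ee R i * y) := by
  rw [dK_ι_mul, hy, mul_zero, sub_zero, Fintype.linearCombination_apply_single, one_smul]

end General

end Pool.Agent.Helper55
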