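import Pool.Agent.Helper55.Koszul

/-!
# The Koszul complex over an algebra over a field: constants and low degree exactness
-/

namespace Pool.Agent.Helper55

open CliffordAlgebra (contractLeft involute)

section Base

variable {k : Type*} [Field k] {R : Type*} [CommRing R] [Algebra k R] {n : ℕ}

/-- extension of scalars on vectors -/
noncomputable def cc (k R : Type*) [Field k] [CommRing R] [Algebra k R] (n : ℕ) :
    (Fin n → k) →ₗ[k] (Fin n → R) :=
  LinearMap.compLeft (Algebra.linearMap k R) (Fin n)

lemma cc_apply (v : Fin n → k) (i : Fin n) : cc k R n v i = algebraMap k R (v i) := rfl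

/-- extension of scalars on exterior algebras -/
noncomputable def jj (k R : Type*) [Field k] [CommRing R] [Algebra k R] (n : ℕ) :
    ExteriorAlgebra k (Fin n → k) →ₐ[k] ExteriorAlgebra R (Fin n → R) :=
  ExteriorAlgebra.lift k ⟨(ExteriorAlgebra.ι R).restrictScalars k ∘ₗ cc k R n, by
    intro m
    exact ExteriorAlgebra.ι_sq_zero _⟩

lemma jj_ι (v : Fin n → k) :
    jj k R n (ExteriorAlgebra.ι k v) = ExteriorAlgebra.ι R (cc k R n v) := by
  exact ExteriorAlgebra.lift_ι_apply k
    ((ExteriorAlgebra.ι R).restrictScalars k ∘ₗ cc k R n) _ v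

lemma cc_single (i : Fin n) : cc k R n (Pi.single i 1) = Pi.single i 1 := by
  ext j
  rw [cc_apply]
  by_cases h : j = i
  · subst h; simp
  · simp [h]

lemma jj_ee (i : Fin n) : jj k R n (ee k i) = ee R i := by
  rw [jj_ι, cc_single]

/-- contraction with the `l`-th coordinate form -/
noncomputable def cl (k : Type*) [Field k] {n : ℕ} (l : Fin n) :
    ExteriorAlgebra k (Fin n → k) →ₗ[k] ExteriorAlgebra k (Fin n → k) :=
  contractLeft (Q := (0 : QuadraticForm k (Fin n → k))) (LinearMap.proj l)

lemma cl_ι_mul (l : Fin n) (a : Fin n → k) (y : ExteriorAlgebra k (Fin n → k)) :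
    cl k l (ExteriorAlgebra.ι k a * y) = a l • y - ExteriorAlgebra.ι k a * cl k l y :=
  CliffordAlgebra.contractLeft_ι_mul _ _ _

lemma cl_algebraMap (l : Fin n) (r : k) : cl k l (algebraMap k _ r) = 0 :=
  CliffordAlgebra.contractLeft_algebraMap _ _ _

lemma ι_eq_sum (a : Fin n → R) : ExteriorAlgebra.ι R a = ∑ i, a i • ee R i := by
  have : a = ∑ i, a i • (Pi.single i (1 : R) : Fin n → R) := by
    ext j
    simp [Finset.sum_apply, Pi.single_apply]
  conv_lhs => rw [this]
  rw [map_sum]
  simp only [map_smul]

lemma ι_mul_swap (a b : Fin n → R) :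
    ExteriorAlgebra.ι R a * ExteriorAlgebra.ι R b =
      - (ExteriorAlgebra.ι R b * ExteriorAlgebra.ι R a) :=
  eq_neg_of_add_eq_zero_left (ExteriorAlgebra.ι_add_mul_swap a b)

/-- The Euler identity. -/
lemma euler (i : ℕ) (y : ExteriorAlgebra k (Fin n → k)) (hy : y ∈ ⋀[k]^i (Fin n → k)) :
    ∑ l, ee k l * cl k l y = (i : k) • y := by
  revert y
  revert i
  apply ext_induction
  · intro r
    simp only [cl_algebraMap]
    simp
  · intro i a y hy h
    simp only [cl_ι_mul, mul_sub, Finset.sum_sub_distrib]
    have e1 : ∑ l, ee k l * (a l • y) = ExteriorAlgebra.ι k a * y := by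
      rw [ι_eq_sum a, Finset.sum_mul]
      refine Finset.sum_congr rfl fun l _ => ?_
      rw [mul_smul_comm, smul_mul_assoc]
    have e2 : ∑ l, ee k l * (ExteriorAlgebra.ι k a * cl k l y) =
        - (ExteriorAlgebra.ι k a * ∑ l, ee k l * cl k l y) := by
      rw [Finset.mul_sum, ← Finset.sum_neg_distrib]
      refine Finset.sum_congr rfl fun l _ => ?_
      rw [← mul_assoc, ι_mul_swap, neg_mul, mul_assoc]
    rw [e1, e2, h, sub_neg_eq_add, mul_smul_comm, Nat.cast_succ, add_smul, one_smul, add_comm]
  · intro i y z hy hz h1 h2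
    simp only [map_add, mul_add, Finset.sum_add_distrib, h1, h2, smul_add]

variable (x : Fin n → R)

lemma dK_jj (y : ExteriorAlgebra k (Fin n → k)) :
    dK x (jj k R n y) = ∑ l, x l • jj k R n (cl k l y) := by
  induction y using CliffordAlgebra.left_induction with
  | algebraMap r =>
    have h1 : ∀ l : Fin n, cl k l (algebraMap k _ r) = 0 := fun l => cl_algebraMap l r
    have h2 : jj k R n (algebraMap k _ r) = algebraMap R _ (algebraMap k R r) := by
      rw [AlgHom.commutes]
      rw [IsScalarTower.algebraMap_apply k R]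
    erw [h2]
    rw [dK_algebraMap]
    symm
    apply Finset.sum_eq_zero
    intro l _
    erw [h1]
    simp
  | add a a' h h' =>
    rw [map_add, map_add, h, h']
    simp only [map_add, smul_add, Finset.sum_add_distrib]
  | ι_mul y a h =>
    change dK x (jj k R n (ExteriorAlgebra.ι k a * y)) =
      ∑ l, x l • jj k R n (cl k l (ExteriorAlgebra.ι k a * y))
    rw [map_mul, jj_ι, dK_ι_mul, h]
    simp only [cl_ι_mul, map_sub, map_mul, jj_ι, smul_sub, Finset.sum_sub_distrib]
    congr 1
    · rw [Fintype.linearCombination_apply, Finset.sum_smul]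
      refine Finset.sum_congr rfl fun l _ => ?_
      rw [map_smul, cc_apply, smul_eq_mul, mul_comm, mul_smul, algebraMap_smul]
    · rw [Finset.mul_sum]
      refine Finset.sum_congr rfl fun l _ => ?_
      rw [mul_smul_comm]

lemma jj_mem {i : ℕ} {y : ExteriorAlgebra k (Fin n → k)} (hy : y ∈ ⋀[k]^i (Fin n → k)) :
    jj k R n y ∈ ⋀[R]^i (Fin n → R) := by
  revert hy
  suffices h : ∀ (i : ℕ) (y : ExteriorAlgebra k (Fin n → k)), y ∈ ⋀[k]^i (Fin n → k) →
      jj k R n y ∈ ⋀[R]^i (Fin n → R) from h i y
  apply ext_induction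
  · intro r
    rw [AlgHom.commutes, IsScalarTower.algebraMap_apply k R]
    exact algebraMap_mem_ext _
  · intro i a y hy h
    rw [map_mul, jj_ι]
    exact ι_mul_mem _ h
  · intro i y z hy hz h1 h2
    rw [map_add]
    exact Submodule.add_mem _ h1 h2

lemma span_jj (i : ℕ) : (⋀[R]^i (Fin n → R)) ≤
    Submodule.span R (jj k R n '' (⋀[k]^i (Fin n → k) : Submodule k _)) := by
  induction i with
  | zero =>
    intro y hy
    obtain ⟨r, rfl⟩ := mem_ext_zero hy
    rw [Algebra.algebraMap_eq_smul_one]
    apply Submodule.smul_mem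
    apply Submodule.subset_span
    refine ⟨1, ?_, map_one _⟩
    have := algebraMap_mem_ext (R := k) (n := n) 1
    rw [map_one] at this
    exact this
  | succ i ih =>
    intro y hy
    rw [pow_succ_ext] at hy
    refine Submodule.mul_induction_on hy ?_ ?_
    · rintro m ⟨a, rfl⟩ z hz
      have hz' := ih hz
      rw [ι_eq_sum, Finset.sum_mul]
      apply Submodule.sum_mem
      intro l _
      rw [smul_mul_assoc]
      apply Submodule.smul_mem
      refine Submodule.span_induction (p := fun z _ => ee R l * z ∈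
        Submodule.span R (jj k R n '' (⋀[k]^(i + 1) (Fin n → k) : Submodule k _)))
        ?_ ?_ ?_ ?_ hz'
      · rintro _ ⟨w, hw, rfl⟩
        apply Submodule.subset_span
        refine ⟨ee k l * w, ι_mul_mem _ hw, ?_⟩
        rw [map_mul, jj_ee]
      · rw [mul_zero]
        exact Submodule.zero_mem _
      · intro z w _ _ hz hw
        rw [mul_add]
        exact Submodule.add_mem _ hz hw
      · intro r z _ hz
        rw [mul_smul_comm]
        exact Submodule.smul_mem _ _ hz
    · intro z w hz hw
      exact Submodule.add_mem _ hz hw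

end Base

end Pool.Agent.Helper55
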