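import Pool.Agent.Helper55.KoszulBase

/-!
# Cycles of the Koszul complex in low coefficient degree
-/

namespace Pool.Agent.Helper55

open CliffordAlgebra (contractLeft involute)

section Theta

variable {k : Type*} [Field k] {R : Type*} [CommRing R] [Algebra k R] {n : ℕ}

/-- The standard basis of the exterior algebra of `R^n`. -/
noncomputable def bE (R : Type*) [CommRing R] (n : ℕ) :
    Module.Basis (Finset (Fin n)) R (ExteriorAlgebra R (Fin n → R)) :=
  (Pi.basisFun R (Fin n)).ExteriorAlgebra

lemma jj_ιMulti (m : ℕ) (v : Fin m → (Fin n → k)) :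
    jj k R n (ExteriorAlgebra.ιMulti k m v) =
      ExteriorAlgebra.ιMulti R m (fun i => cc k R n (v i)) := by
  rw [ExteriorAlgebra.ιMulti_apply, ExteriorAlgebra.ιMulti_apply, map_list_prod, List.map_ofFn]
  congr 1
  apply congrArg
  funext i
  exact jj_ι _

lemma jj_bE (T : Finset (Fin n)) : jj k R n (bE k n T) = bE R n T := by
  rw [bE, bE, ExteriorAlgebra.basis_apply, ExteriorAlgebra.basis_apply]
  unfold ExteriorAlgebra.ιMulti_family
  rw [jj_ιMulti]
  congr 1
  funext i
  simp only [Function.comp_apply, Pi.basisFun_apply]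
  exact cc_single _

/-- coefficientwise application of a `k`-linear form -/
noncomputable def Th (θ : R →ₗ[k] k) :
    ExteriorAlgebra R (Fin n → R) →ₗ[k] ExteriorAlgebra k (Fin n → k) :=
  ∑ T : Finset (Fin n), (LinearMap.toSpanSingleton k _ (bE k n T)) ∘ₗ θ ∘ₗ
    (((bE R n).coord T).restrictScalars k)

lemma Th_apply (θ : R →ₗ[k] k) (y : ExteriorAlgebra R (Fin n → R)) :
    Th θ y = ∑ T : Finset (Fin n), θ ((bE R n).repr y T) • bE k n T := by
  rw [Th, LinearMap.sum_apply]
  rfl

lemma Th_smul_jj (θ : R →ₗ[k] k) (r : R) (y : ExteriorAlgebra k (Fin n → k)) :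
    Th θ (r • jj k R n y) = θ r • y := by
  have h : (Th θ ∘ₗ ((LinearMap.lsmul R (ExteriorAlgebra R (Fin n → R)) r).restrictScalars k) ∘ₗ
      (jj k R n).toLinearMap) = θ r • LinearMap.id := by
    apply (bE k n).ext
    intro T
    change Th θ (r • jj k R n (bE k n T)) = θ r • bE k n T
    rw [jj_bE, Th_apply]
    rw [Finset.sum_eq_single T]
    · rw [map_smul, Module.Basis.repr_self, Finsupp.smul_apply, Finsupp.single_eq_same,
        smul_eq_mul, mul_one]
    · intro T' _ hT
      rw [map_smul, Module.Basis.repr_self, Finsupp.smul_apply,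
        Finsupp.single_eq_of_ne hT, smul_zero, map_zero, zero_smul]
    · intro h
      exact absurd (Finset.mem_univ T) h
  exact LinearMap.congr_fun h y

lemma repr_mem {J : Ideal R} {y : ExteriorAlgebra R (Fin n → R)}
    (hy : y ∈ J • (⊤ : Submodule R (ExteriorAlgebra R (Fin n → R)))) (T : Finset (Fin n)) :
    (bE R n).repr y T ∈ J := by
  refine Submodule.smul_induction_on hy ?_ ?_
  · intro r hr z _
    rw [map_smul, Finsupp.smul_apply, smul_eq_mul]
    exact J.mul_mem_right _ hr
  · intro z w hz hw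
    rw [map_add, Finsupp.add_apply]
    exact J.add_mem hz hw

lemma Th_eq_zero {θ : R →ₗ[k] k} {J : Ideal R} (hJ : ∀ r ∈ J, θ r = 0)
    {y : ExteriorAlgebra R (Fin n → R)}
    (hy : y ∈ J • (⊤ : Submodule R (ExteriorAlgebra R (Fin n → R)))) : Th θ y = 0 := by
  rw [Th_apply]
  apply Finset.sum_eq_zero
  intro T _
  rw [hJ _ (repr_mem hy T), zero_smul]

end Theta

/-- The ideal generated by the sequence. -/
abbrev mI {R : Type*} [CommRing R] {n : ℕ} (x : Fin n → R) : Ideal R :=
  Ideal.span (Set.range x)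

/-- The hypotheses on the ring in low degrees: `R` looks like a polynomial ring modulo the cube of
the ideal generated by the sequence. -/
structure LowDegree (k : Type*) [Field k] {R : Type*} [CommRing R] [Algebra k R] {n : ℕ}
    (x : Fin n → R) : Prop where
  expand : ∀ r : R, ∃ (c : k) (a : Fin n → k),
    r - algebraMap k R c - ∑ l, a l • x l ∈ (mI x) ^ 2
  theta1 : ∀ l : Fin n, ∃ θ : R →ₗ[k] k, (∀ r ∈ (mI x) ^ 2, θ r = 0) ∧ θ 1 = 0 ∧
    ∀ a, θ (x a) = if a = l then 1 else 0
  theta2 : ∀ l m : Fin n, ∃ θ : R →ₗ[k] k, (∀ r ∈ (mI x) ^ 3, θ r = 0) ∧ θ 1 = 0 ∧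
    (∀ a, θ (x a) = 0) ∧
    ∀ a b, θ (x a * x b) = (if a = l ∧ b = m then 1 else 0) + (if a = m ∧ b = l then 1 else 0)

section Cycles

variable {k : Type*} [Field k] {R : Type*} [CommRing R] [Algebra k R] {n : ℕ}
  {x : Fin n → R}

lemma x_mem (l : Fin n) : x l ∈ mI x := Ideal.subset_span ⟨l, rfl⟩

lemma expand_ext (h : LowDegree k x) (i : ℕ) (y : ExteriorAlgebra R (Fin n → R))
    (hy : y ∈ ⋀[R]^i (Fin n → R)) :
    ∃ (w : ExteriorAlgebra k (Fin n → k)) (v : Fin n → ExteriorAlgebra k (Fin n → k)),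
      w ∈ ⋀[k]^i (Fin n → k) ∧ (∀ l, v l ∈ ⋀[k]^i (Fin n → k)) ∧
      y - jj k R n w - ∑ l, x l • jj k R n (v l) ∈ ((mI x) ^ 2) • (⋀[R]^i (Fin n → R)) := by
  have hy' := span_jj (k := k) i hy
  refine Submodule.span_induction (p := fun y _ =>
    ∃ (w : ExteriorAlgebra k (Fin n → k)) (v : Fin n → ExteriorAlgebra k (Fin n → k)),
      w ∈ ⋀[k]^i (Fin n → k) ∧ (∀ l, v l ∈ ⋀[k]^i (Fin n → k)) ∧
      y - jj k R n w - ∑ l, x l • jj k R n (v l) ∈ ((mI x) ^ 2) • (⋀[R]^i (Fin n → R)))
    ?_ ?_ ?_ ?_ hy'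
  · rintro _ ⟨w, hw, rfl⟩
    refine ⟨w, 0, hw, fun l => Submodule.zero_mem _, ?_⟩
    simp
  · refine ⟨0, 0, Submodule.zero_mem _, fun l => Submodule.zero_mem _, ?_⟩
    simp
  · rintro y z _ _ ⟨w, v, hw, hv, h1⟩ ⟨w', v', hw', hv', h1'⟩
    refine ⟨w + w', v + v', Submodule.add_mem _ hw hw',
      fun l => Submodule.add_mem _ (hv l) (hv' l), ?_⟩
    have := Submodule.add_mem _ h1 h1'
    convert this using 1
    simp only [map_add, Pi.add_apply, smul_add, Finset.sum_add_distrib]
    abel
  · rintro r y _ ⟨w, v, hw, hv, h1⟩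
    obtain ⟨c, a, hr⟩ := h.expand r
    refine ⟨c • w, fun l => c • v l + a l • w, Submodule.smul_mem _ _ hw,
      fun l => Submodule.add_mem _ (Submodule.smul_mem _ _ (hv l)) (Submodule.smul_mem _ _ hw), ?_⟩
    set r' := r - algebraMap k R c - ∑ l, a l • x l with hr'
    set y' := y - jj k R n w - ∑ l, x l • jj k R n (v l) with hy'
    have ey : y = jj k R n w + ∑ l, x l • jj k R n (v l) + y' := by
      rw [hy']; abel
    have er : r = algebraMap k R c + ∑ l, a l • x l + r' := by
      rw [hr']; ring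
    have key : r • y - jj k R n (c • w) - ∑ l, x l • jj k R n (c • v l + a l • w) =
        r' • jj k R n w + (∑ l, a l • x l + r') • ∑ l, x l • jj k R n (v l) + r • y' := by
      conv_lhs => rw [ey]
      rw [smul_add, smul_add]
      conv_lhs => rw [er]
      simp only [map_smul, map_add, smul_add, Finset.sum_add_distrib, add_smul]
      have e1 : algebraMap k R c • jj k R n w = c • jj k R n w := algebraMap_smul _ _ _
      have e2 : algebraMap k R c • ∑ l, x l • jj k R n (v l) =
          ∑ l, x l • c • jj k R n (v l) := by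
        rw [Finset.smul_sum]
        refine Finset.sum_congr rfl fun l _ => ?_
        rw [algebraMap_smul, smul_comm]
      have e3 : (∑ l, a l • x l) • jj k R n w = ∑ l, x l • a l • jj k R n w := by
        rw [Finset.sum_smul]
        refine Finset.sum_congr rfl fun l _ => ?_
        rw [smul_assoc, smul_comm]
      have e4 : r • y' = algebraMap k R c • y' + (∑ l, a l • x l) • y' + r' • y' := by
        rw [← add_smul, ← add_smul, ← er]
      rw [e1, e2, e3, e4]
      abel
    rw [key]
    have m1 : jj k R n w ∈ ⋀[R]^i (Fin n → R) := jj_mem hw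
    have m2 : ∑ l, x l • jj k R n (v l) ∈ mI x • ⋀[R]^i (Fin n → R) :=
      Submodule.sum_mem _ fun l _ => Submodule.smul_mem_smul (x_mem l) (jj_mem (hv l))
    have m3 : ∑ l, a l • x l ∈ mI x :=
      Submodule.sum_mem _ fun l _ => by
        rw [Algebra.smul_def]
        exact Ideal.mul_mem_left _ _ (x_mem l)
    have m4 : r' ∈ mI x := Ideal.pow_le_self two_ne_zero hr
    refine Submodule.add_mem _ (Submodule.add_mem _ (Submodule.smul_mem_smul hr m1) ?_)
      (Submodule.smul_mem _ _ h1)
    rw [pow_two, mul_smul]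
    exact Submodule.smul_mem_smul (Ideal.add_mem _ m3 m4) m2

lemma smul_top_of_mem {J : Ideal R} {i : ℕ} {y : ExteriorAlgebra R (Fin n → R)}
    (hy : y ∈ J • (⋀[R]^i (Fin n → R))) :
    y ∈ J • (⊤ : Submodule R (ExteriorAlgebra R (Fin n → R))) :=
  Submodule.smul_mono le_rfl le_top hy

lemma dK_mem_smul_top (y : ExteriorAlgebra R (Fin n → R)) :
    dK x y ∈ mI x • (⊤ : Submodule R (ExteriorAlgebra R (Fin n → R))) := by
  induction y using CliffordAlgebra.left_induction with
  | algebraMap r =>
    have : dK x (algebraMap R _ r) = 0 := dK_algebraMap x r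
    erw [this]
    exact Submodule.zero_mem _
  | add a a' h h' =>
    rw [map_add]
    exact Submodule.add_mem _ h h'
  | ι_mul y a h =>
    change dK x (ExteriorAlgebra.ι R a * y) ∈ _
    rw [dK_ι_mul]
    apply Submodule.sub_mem
    · apply Submodule.smul_mem_smul _ Submodule.mem_top
      rw [Fintype.linearCombination_apply]
      exact Submodule.sum_mem _ fun l _ => Ideal.mul_mem_left _ _ (x_mem l)
    · refine Submodule.smul_induction_on h ?_ ?_
      · intro r hr z _
        rw [mul_smul_comm]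
        exact Submodule.smul_mem_smul hr Submodule.mem_top
      · intro z w hz hw
        rw [mul_add]
        exact Submodule.add_mem _ hz hw

lemma dK_mem_smul_top' {J : Ideal R} {y : ExteriorAlgebra R (Fin n → R)}
    (hy : y ∈ J • (⊤ : Submodule R (ExteriorAlgebra R (Fin n → R)))) :
    dK x y ∈ (J * mI x) • (⊤ : Submodule R (ExteriorAlgebra R (Fin n → R))) := by
  refine Submodule.smul_induction_on hy ?_ ?_
  · intro r hr z _
    rw [map_smul, mul_smul]
    exact Submodule.smul_mem_smul hr (dK_mem_smul_top z)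
  · intro z w hz hw
    rw [map_add]
    exact Submodule.add_mem _ hz hw

/-- Every cycle of positive degree is homologous to a cycle with coefficients in `𝔪²`. -/
lemma cycle_rep [CharZero k] (h : LowDegree k x) (i : ℕ) (y : ExteriorAlgebra R (Fin n → R))
    (hy : y ∈ ⋀[R]^(i + 1) (Fin n → R)) (hd : dK x y = 0) :
    ∃ g ∈ ⋀[R]^(i + 2) (Fin n → R),
      y - dK x g ∈ ((mI x) ^ 2) • (⋀[R]^(i + 1) (Fin n → R)) := by
  obtain ⟨w, v, hw, hv, hyw⟩ := expand_ext h (i + 1) y hy
  set y' := y - jj k R n w - ∑ l, x l • jj k R n (v l) with hy'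
  have ey : y = jj k R n w + ∑ l, x l • jj k R n (v l) + y' := by
    rw [hy']; abel
  have hdy' : dK x y' ∈ ((mI x) ^ 3) • (⊤ : Submodule R (ExteriorAlgebra R (Fin n → R))) := by
    have := dK_mem_smul_top' (x := x) (smul_top_of_mem hyw)
    rwa [← pow_succ] at this
  have e1 : ∑ m, x m • jj k R n (cl k m w) +
      ∑ l, ∑ m, (x l * x m) • jj k R n (cl k m (v l)) + dK x y' = 0 := by
    rw [← hd]
    conv_rhs => rw [ey]
    rw [map_add, map_add, dK_jj, map_sum]
    congr 2
    refine Finset.sum_congr rfl fun l _ => ?_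
    rw [map_smul, dK_jj, Finset.smul_sum]
    refine Finset.sum_congr rfl fun m _ => ?_
    rw [mul_smul]
  -- degree zero part
  have hw0 : ∀ m, cl k m w = 0 := by
    intro m
    obtain ⟨θ, t1, t2, t3⟩ := h.theta1 m
    have e2 := congrArg (Th (n := n) θ) e1
    rw [map_add, map_add, map_sum, map_zero] at e2
    have z1 : Th θ (dK x y') = 0 := Th_eq_zero t1
      (Submodule.smul_mono (Ideal.pow_le_pow_right (by norm_num)) le_rfl hdy')
    have z2 : Th (n := n) θ (∑ l, ∑ m, (x l * x m) • jj k R n (cl k m (v l))) = 0 := by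
      apply Th_eq_zero t1
      refine Submodule.sum_mem _ fun l _ => Submodule.sum_mem _ fun m _ => ?_
      apply Submodule.smul_mem_smul _ Submodule.mem_top
      rw [pow_two]
      exact Ideal.mul_mem_mul (x_mem l) (x_mem m)
    rw [z1, z2, add_zero, add_zero] at e2
    simp only [Th_smul_jj, t3] at e2
    simpa using e2
  have hw' : w = 0 := by
    have := euler (i + 1) w hw
    simp only [hw0, mul_zero, Finset.sum_const_zero] at this
    have hne : ((i + 1 : ℕ) : k) ≠ 0 := Nat.cast_ne_zero.mpr (Nat.succ_ne_zero i)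
    exact (smul_eq_zero.mp this.symm).resolve_left hne
  -- degree one part
  have hv0 : ∀ l m, cl k m (v l) + cl k l (v m) = 0 := by
    intro l m
    obtain ⟨θ, t1, t2, t3, t4⟩ := h.theta2 l m
    have e2 := congrArg (Th (n := n) θ) e1
    rw [map_add, map_add, map_zero] at e2
    have z1 : Th θ (dK x y') = 0 := Th_eq_zero t1 hdy'
    have z2 : Th (n := n) θ (∑ m, x m • jj k R n (cl k m w)) = 0 := by
      rw [map_sum]
      simp only [Th_smul_jj, t3, zero_smul, Finset.sum_const_zero]
    rw [z1, z2, add_zero, zero_add] at e2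
    simp only [map_sum, Th_smul_jj, t4, add_smul, Finset.sum_add_distrib] at e2
    have s1 : ∑ a, ∑ b, (if a = l ∧ b = m then (1 : k) else 0) • cl k b (v a) =
        cl k m (v l) := by
      rw [Finset.sum_eq_single l, Finset.sum_eq_single m]
      · simp
      · intro b _ hb; simp [hb]
      · intro hb; exact absurd (Finset.mem_univ _) hb
      · intro a _ ha
        apply Finset.sum_eq_zero
        intro b _
        simp [ha]
      · intro hb; exact absurd (Finset.mem_univ _) hb
    have s2 : ∑ a, ∑ b, (if a = m ∧ b = l then (1 : k) else 0) • cl k b (v a) =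
        cl k l (v m) := by
      rw [Finset.sum_eq_single m, Finset.sum_eq_single l]
      · simp
      · intro b _ hb; simp [hb]
      · intro hb; exact absurd (Finset.mem_univ _) hb
      · intro a _ ha
        apply Finset.sum_eq_zero
        intro b _
        simp [ha]
      · intro hb; exact absurd (Finset.mem_univ _) hb
    rw [s1, s2] at e2
    exact e2
  -- the primitive
  set g : ExteriorAlgebra k (Fin n → k) := ∑ m, ee k m * v m with hg
  have hcg : ∀ l, cl k l g = ((i + 2 : ℕ) : k) • v l := by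
    intro l
    rw [hg, map_sum]
    simp only [cl_ι_mul, Finset.sum_sub_distrib]
    have s1 : ∑ m, (Pi.single m (1 : k) : Fin n → k) l • v m = v l := by
      rw [Finset.sum_eq_single l]
      · simp
      · intro b _ hb
        simp [Ne.symm hb]
      · intro hb; exact absurd (Finset.mem_univ _) hb
    have s2 : ∑ m, ee k m * cl k l (v m) = - (((i + 1 : ℕ) : k) • v l) := by
      rw [← euler (i + 1) (v l) (hv l), ← Finset.sum_neg_distrib]
      refine Finset.sum_congr rfl fun m _ => ?_
      have := hv0 m l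
      rw [eq_neg_of_add_eq_zero_left this, mul_neg]
    rw [s1, s2, sub_neg_eq_add]
    push_cast
    module
  have hne : ((i + 2 : ℕ) : k) ≠ 0 := Nat.cast_ne_zero.mpr (by omega)
  refine ⟨jj k R n (((i + 2 : ℕ) : k)⁻¹ • g), ?_, ?_⟩
  · apply jj_mem
    apply Submodule.smul_mem
    rw [hg]
    exact Submodule.sum_mem _ fun m _ => ι_mul_mem _ (hv m)
  · have : dK x (jj k R n (((i + 2 : ℕ) : k)⁻¹ • g)) = ∑ l, x l • jj k R n (v l) := by
      rw [dK_jj]
      refine Finset.sum_congr rfl fun l _ => ?_
      rw [map_smul, hcg, smul_smul, inv_mul_cancel₀ hne, one_smul]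
    rw [this]
    have e3 : y - ∑ l, x l • jj k R n (v l) = y' := by
      rw [hy', hw', map_zero, sub_zero]
    rw [e3]
    exact hyw

end Cycles

end Pool.Agent.Helper55
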