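import Pool.Agent.Helper55.KoszulCycles

/-!
# Koszul homology and good representatives
-/

namespace Pool.Agent.Helper55

open CliffordAlgebra (contractLeft involute)

section Homology

variable {R : Type*} [CommRing R] {n : ℕ} (x : Fin n → R)

/-- The cycles of degree `i` of the Koszul complex of `R` on `x`. -/
noncomputable def koszulCycles (i : ℕ) : Submodule R (ExteriorAlgebra R (Fin n → R)) :=
  LinearMap.ker (dK x) ⊓ ⋀[R]^i (Fin n → R)

/-- The boundaries of degree `i` of the Koszul complex of `R` on `x`, as a submodule of the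
cycles. -/
noncomputable def koszulBoundaries (i : ℕ) : Submodule R (koszulCycles x i) :=
  ((⋀[R]^(i + 1) (Fin n → R)).map (dK x)).comap (koszulCycles x i).subtype

/-- The `i`-th Koszul homology module of `R` on `x`. -/
abbrev KoszulHomology (i : ℕ) : Type _ := koszulCycles x i ⧸ koszulBoundaries x i

end Homology

section Reps

variable {k : Type*} [Field k] {R : Type*} [CommRing R] [Algebra k R] {n : ℕ}
  {x : Fin n → R}

/-- Good representatives of a basis of the Koszul homology. -/
lemma exists_reps [CharZero k] (h : LowDegree k x) (i : ℕ) {ι : Type*}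
    (b : ι → KoszulHomology x (i + 1)) :
    ∃ z : ι → koszulCycles x (i + 1), (∀ a, (koszulBoundaries x (i + 1)).mkQ (z a) = b a) ∧
      ∀ a, (z a : ExteriorAlgebra R (Fin n → R)) ∈ ((mI x) ^ 2) • (⋀[R]^(i + 1) (Fin n → R)) := by
  have key : ∀ a, ∃ z : koszulCycles x (i + 1), (koszulBoundaries x (i + 1)).mkQ z = b a ∧
      (z : ExteriorAlgebra R (Fin n → R)) ∈ ((mI x) ^ 2) • (⋀[R]^(i + 1) (Fin n → R)) := by
    intro a
    obtain ⟨y, hy⟩ := Submodule.mkQ_surjective _ (b a)
    obtain ⟨hy1, hy2⟩ := y.2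
    obtain ⟨g, hg, hyg⟩ := cycle_rep h i y.1 hy2 hy1
    have hmem : (y : ExteriorAlgebra R (Fin n → R)) - dK x g ∈ koszulCycles x (i + 1) := by
      refine ⟨?_, Submodule.sub_mem _ hy2 (dK_mem x hg)⟩
      change dK x (y - dK x g) = 0
      rw [map_sub, dK_dK, sub_zero]
      exact hy1
    refine ⟨⟨_, hmem⟩, ?_, hyg⟩
    rw [← hy, ← sub_eq_zero, ← map_sub, Submodule.mkQ_apply, Submodule.Quotient.mk_eq_zero]
    refine ⟨-g, Submodule.neg_mem _ hg, ?_⟩
    simp
  choose z hz using key
  exact ⟨z, fun a => (hz a).1, fun a => (hz a).2⟩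

lemma mul_mem_smul_top {J J' : Ideal R} {a b : ExteriorAlgebra R (Fin n → R)}
    (ha : a ∈ J • (⊤ : Submodule R (ExteriorAlgebra R (Fin n → R))))
    (hb : b ∈ J' • (⊤ : Submodule R (ExteriorAlgebra R (Fin n → R)))) :
    a * b ∈ (J * J') • (⊤ : Submodule R (ExteriorAlgebra R (Fin n → R))) := by
  refine Submodule.smul_induction_on ha ?_ ?_
  · intro r hr z _
    refine Submodule.smul_induction_on hb ?_ ?_
    · intro s hs w _
      rw [smul_mul_smul_comm]
      exact Submodule.smul_mem_smul (Ideal.mul_mem_mul hr hs) Submodule.mem_top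
    · intro u v hu hv
      rw [mul_add]
      exact Submodule.add_mem _ hu hv
  · intro u v hu hv
    rw [add_mul]
    exact Submodule.add_mem _ hu hv

end Reps

end Pool.Agent.Helper55
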